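import Mathlib
import Pool.Agent.Lib_helper41.Defs

set_option autoImplicit false

/-!
The linear functional showing that the monomial of a facet `G0` in the support of a
relative cycle is not in `Θ · A`.
-/

namespace Pool.Agent.RelH.Fn

open Finset

variable {n : ℕ} {F : Type} [Field F]

/-- `∏_{w ∈ G - u} (a u - a w)` -/
def cc (a : Fin n → F) (G : Finset (Fin n)) (u : Fin n) : F := ∏ w ∈ G.erase u, (a u - a w)

/-- Vandermonde product -/
def V (a : Fin n → F) (G : Finset (Fin n)) : F :=
  ∏ u ∈ G, ∏ w ∈ G.filter (fun w => u < w), (a u - a w)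

def sG (a : Fin n → F) (b : F) (G : Finset (Fin n)) : F := ∏ w ∈ G, (b - a w)

def BB (a : Fin n → F) (b : F) (e : Fin n →₀ ℕ) : F := ∏ u, ((b - a u)⁻¹) ^ e u

def CC (a : Fin n → F) (G : Finset (Fin n)) (e : Fin n →₀ ℕ) : F := ∏ u, ((cc a G u)⁻¹) ^ e u

theorem cc_ne_zero {a : Fin n → F} (ha : Function.Injective a) (G : Finset (Fin n)) (u : Fin n) :
    cc a G u ≠ 0 := by
  rw [cc, Finset.prod_ne_zero_iff]
  intro w hw
  exact sub_ne_zero.2 (fun h => (mem_erase.1 hw).1 (ha h).symm)

theorem V_ne_zero {a : Fin n → F} (ha : Function.Injective a) (G : Finset (Fin n)) :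
    V a G ≠ 0 := by
  rw [V, Finset.prod_ne_zero_iff]
  intro u _
  rw [Finset.prod_ne_zero_iff]
  intro w hw
  have := (mem_filter.1 hw).2
  exact sub_ne_zero.2 (fun h => (ne_of_lt this) (ha h))

theorem sG_ne_zero {a : Fin n → F} {b : F} (hb : ∀ u, b ≠ a u) (G : Finset (Fin n)) :
    sG a b G ≠ 0 := by
  rw [sG, Finset.prod_ne_zero_iff]
  intro w _
  exact sub_ne_zero.2 (hb w)

theorem BB_ne_zero {a : Fin n → F} {b : F} (hb : ∀ u, b ≠ a u) (e : Fin n →₀ ℕ) :
    BB a b e ≠ 0 := by
  rw [BB, Finset.prod_ne_zero_iff]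
  intro w _
  exact pow_ne_zero _ (inv_ne_zero (sub_ne_zero.2 (hb w)))

theorem CC_ne_zero {a : Fin n → F} (ha : Function.Injective a) (G : Finset (Fin n))
    (e : Fin n →₀ ℕ) : CC a G e ≠ 0 := by
  rw [CC, Finset.prod_ne_zero_iff]
  intro w _
  exact pow_ne_zero _ (inv_ne_zero (cc_ne_zero ha G w))

theorem sub_comm2 [CharP F 2] (x y : F) : x - y = y - x := by
  rw [CharTwo.sub_eq_add, CharTwo.sub_eq_add, add_comm]

theorem V_insert [CharP F 2] (a : Fin n → F) {v : Fin n} {R : Finset (Fin n)} (hv : v ∉ R) :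
    V a (insert v R) = V a R * cc a (insert v R) v := by
  have h1 : (insert v R).filter (fun w => v < w) = R.filter (fun w => v < w) := by
    rw [filter_insert, if_neg (lt_irrefl v)]
  have h2 : ∀ u ∈ R, ∏ w ∈ (insert v R).filter (fun w => u < w), (a u - a w) =
      (if u < v then (a u - a v) else 1) * ∏ w ∈ R.filter (fun w => u < w), (a u - a w) := by
    intro u _
    rw [filter_insert]
    split_ifs with h
    · rw [prod_insert (by simp [hv])]
    · rw [one_mul]
  have h3 : cc a (insert v R) v = (∏ w ∈ R.filter (fun w => v < w), (a v - a w)) *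
      ∏ w ∈ R.filter (fun w => w < v), (a w - a v) := by
    rw [cc, erase_insert hv, ← prod_filter_mul_prod_filter_not R (fun w => v < w)]
    congr 1
    have : R.filter (fun w => ¬ v < w) = R.filter (fun w => w < v) := by
      apply filter_congr
      intro w hw
      have : w ≠ v := fun h => hv (h ▸ hw)
      constructor
      · intro h
        exact lt_of_le_of_ne (not_lt.1 h) this
      · intro h
        exact not_lt.2 h.le
    rw [this]
    exact prod_congr rfl fun w _ => sub_comm2 _ _
  have h4 : ∏ u ∈ R, (if u < v then (a u - a v) else 1) =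
      ∏ w ∈ R.filter (fun w => w < v), (a w - a v) := by
    rw [prod_filter]
  rw [V, prod_insert hv, h1, prod_congr rfl h2, prod_mul_distrib, h4, h3, V]
  ring

theorem divided {a : Fin n → F} (ha : Function.Injective a) (G : Finset (Fin n))
    (e : Fin n →₀ ℕ) (he : G.card = (∑ u, e u) + 1) :
    ∑ v ∈ G, (∏ u, (a v - a u) ^ e u) * (cc a G v)⁻¹ = 1 := by
  classical
  set P : Polynomial F := ∏ u, (Polynomial.X - Polynomial.C (a u)) ^ e u with hP
  have hmon : P.Monic := Polynomial.monic_prod_of_monic _ _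
    fun u _ => (Polynomial.monic_X_sub_C _).pow _
  have hdeg : P.natDegree = ∑ u, e u := by
    rw [hP, Polynomial.natDegree_prod_of_monic _ _ fun u _ => (Polynomial.monic_X_sub_C _).pow _]
    apply sum_congr rfl
    intro u _
    rw [(Polynomial.monic_X_sub_C _).natDegree_pow, Polynomial.natDegree_X_sub_C, mul_one]
  have h := Lagrange.leadingCoeff_eq_sum (s := G) (v := a) (ha.injOn) (P := P) (by
    rw [Polynomial.degree_eq_natDegree hmon.ne_zero, hdeg, he]
    norm_cast)
  rw [hmon.leadingCoeff] at h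
  rw [h]
  apply sum_congr rfl
  intro v _
  rw [hP, Polynomial.eval_prod, div_eq_mul_inv, cc]
  congr 1
  apply prod_congr rfl
  intro u _
  simp

theorem lagr {a : Fin n → F} (ha : Function.Injective a) {b : F} (hb : ∀ u, b ≠ a u)
    (G : Finset (Fin n)) (j : ℕ) (hj : j < G.card) :
    sG a b G * ∑ u ∈ G, a u ^ j * ((b - a u)⁻¹ * (cc a G u)⁻¹) = b ^ j := by
  classical
  have h1 := Lagrange.eval_interpolate_not_at_node (s := G) (v := a) (fun i => a i ^ j) (x := b)
    (fun i _ => hb i)
  have h2 : Lagrange.interpolate G a (fun i => a i ^ j) = (Polynomial.X ^ j : Polynomial F) := by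
    have := Lagrange.eq_interpolate (s := G) (v := a) ha.injOn (f := (Polynomial.X ^ j))
      (by rw [Polynomial.degree_X_pow]; exact_mod_cast hj)
    rw [this]
    simp
  rw [h2] at h1
  rw [Polynomial.eval_pow, Polynomial.eval_X, Lagrange.eval_nodal] at h1
  rw [h1, sG]
  congr 1
  apply sum_congr rfl
  intro u _
  rw [Lagrange.nodalWeight, prod_inv_distrib, cc]
  ring

theorem cc_erase {a : Fin n → F} {G : Finset (Fin n)} {u v : Fin n} (hv : v ∈ G) (huv : u ≠ v) :
    cc a G u = cc a (G.erase v) u * (a u - a v) := by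
  rw [cc, cc, ← mul_prod_erase (G.erase u) _ (mem_erase.2 ⟨huv.symm, hv⟩), erase_right_comm,
    mul_comm]

theorem Kid [CharP F 2] {a : Fin n → F} (ha : Function.Injective a) (G : Finset (Fin n))
    (e : Fin n →₀ ℕ) (he : G.card = (∑ u, e u) + 1) (heG : e.support ⊆ G) :
    V a G * CC a G e = ∑ v ∈ G \ e.support, V a (G.erase v) * CC a (G.erase v) e := by
  classical
  have h1 : ∀ v ∈ G \ e.support, V a (G.erase v) * CC a (G.erase v) e =
      V a G * CC a G e * ((∏ u, (a v - a u) ^ e u) * (cc a G v)⁻¹) := by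
    intro v hv
    rw [mem_sdiff] at hv
    have hV : V a G = V a (G.erase v) * cc a G v := by
      have := V_insert a (v := v) (R := G.erase v) (notMem_erase v G)
      rwa [insert_erase hv.1] at this
    have hC : CC a (G.erase v) e = CC a G e * ∏ u, (a v - a u) ^ e u := by
      rw [CC, CC, ← prod_mul_distrib]
      apply prod_congr rfl
      intro u _
      by_cases hu : e u = 0
      · simp [hu]
      · have huv : u ≠ v := by
          rintro rfl
          exact hv.2 (Finsupp.mem_support_iff.2 hu)
        rw [← mul_pow]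
        congr 1
        rw [cc_erase hv.1 huv, sub_comm2 (a v) (a u)]
        have h3 : a u - a v ≠ 0 := sub_ne_zero.2 fun h => huv (ha h)
        rw [mul_inv, mul_assoc, inv_mul_cancel₀ h3, mul_one]
    rw [hC, hV]
    have h4 : cc a G v ≠ 0 := cc_ne_zero ha G v
    field_simp
  rw [sum_congr rfl h1, ← mul_sum]
  have h2 : ∑ v ∈ G \ e.support, ((∏ u, (a v - a u) ^ e u) * (cc a G v)⁻¹) =
      ∑ v ∈ G, ((∏ u, (a v - a u) ^ e u) * (cc a G v)⁻¹) := by
    apply sum_subset sdiff_subset
    intro v hvG hv
    have hve : e v ≠ 0 := by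
      by_contra h
      exact hv (mem_sdiff.2 ⟨hvG, by simpa using h⟩)
    rw [prod_eq_zero (mem_univ v) (by rw [sub_self, zero_pow hve]), zero_mul]
  rw [h2, divided ha G e he, mul_one]

/-- the embedding of the prime field -/
noncomputable def kap (F : Type) [Field F] [CharP F 2] : ZMod 2 →+* F := ZMod.castHom (dvd_refl 2) F

theorem K_zero [CharP F 2] {a : Fin n → F} (ha : Function.Injective a)
    {Γ : Finset (Finset (Fin n))} (hdown : Down Γ) {P : Finset (Fin n) → Prop}
    (hP : ∀ s t, t ∈ Γ → P s → s ⊆ t → P t) {d : ℕ} {cV : Ch (Fin n)}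
    (hcard : ∀ s ∈ cV.support, s.card = d) (hΓ : ∀ s ∈ cV.support, s ∈ Γ)
    (hbd : ∀ s ∈ (bd cV).support, ¬ P s) (e : Fin n →₀ ℕ) (he : d = (∑ u, e u) + 1)
    (heP : e.support ∈ Γ → P e.support) :
    ∑ G ∈ cV.support, (if e.support ⊆ G then V a G * CC a G e else 0) = 0 := by
  classical
  set T : Finset (Fin n) → F := fun R => if e.support ⊆ R then V a R * CC a R e else 0 with hT
  let Φ : Ch (Fin n) →+ F :=
    Finsupp.liftAddHom fun R => (AddMonoidHom.mulRight (T R)).comp (kap F).toAddMonoidHom
  have hΦs : ∀ (R : Finset (Fin n)) (r : ZMod 2), Φ (Finsupp.single R r) = kap F r * T R := by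
    intro R r
    simp [Φ]
  have hΦ : ∀ c : Ch (Fin n), Φ c = ∑ R ∈ c.support, kap F (c R) * T R := by
    intro c
    conv_lhs => rw [← Finsupp.sum_single c]
    rw [Finsupp.sum, map_sum]
    exact sum_congr rfl fun R _ => hΦs _ _
  -- expansion of bd cV
  have hval : ∀ s ∈ cV.support, cV s = 1 := by
    intro s hs
    have : cV s ≠ 0 := Finsupp.mem_support_iff.1 hs
    generalize cV s = x at this
    revert this
    revert x
    decide
  have hcV : cV = ∑ G ∈ cV.support, Finsupp.single G (1 : ZMod 2) := by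
    conv_lhs => rw [← Finsupp.sum_single cV]
    rw [Finsupp.sum]
    exact sum_congr rfl fun s hs => by rw [hval s hs]
  have hbdc : bd cV = ∑ G ∈ cV.support, ∑ v ∈ G, Finsupp.single (G.erase v) (1 : ZMod 2) := by
    conv_lhs => rw [hcV]
    rw [map_sum]
    exact sum_congr rfl fun s hs => bd_single s
  -- supports of bd cV are faces
  have hsub : ∀ R ∈ (bd cV).support, R ∈ Γ := by
    intro R hR
    rw [hbdc] at hR
    obtain ⟨G, hG, hR⟩ := Finset.mem_biUnion.1 (Finsupp.support_finsetSum hR)
    obtain ⟨v, hv, hR⟩ := Finset.mem_biUnion.1 (Finsupp.support_finsetSum hR)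
    have : R = G.erase v := by
      have := Finsupp.support_single_subset hR
      simpa using this
    rw [this]
    exact hdown G (hΓ G hG) _ (erase_subset v G)
  have hz : Φ (bd cV) = 0 := by
    rw [hΦ]
    apply sum_eq_zero
    intro R hR
    have : T R = 0 := by
      simp only [hT]
      rw [if_neg]
      intro hER
      have hRΓ := hsub R hR
      have hE := hdown R hRΓ _ hER
      exact hbd R hR (hP _ _ hRΓ (heP hE) hER)
    rw [this, mul_zero]
  rw [hbdc, map_sum] at hz
  refine Eq.trans ?_ hz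
  apply sum_congr rfl
  intro G hG
  rw [map_sum]
  have h1 : ∀ v ∈ G, Φ (Finsupp.single (G.erase v) 1) = T (G.erase v) := by
    intro v _
    rw [hΦs, map_one, one_mul]
  rw [sum_congr rfl h1]
  by_cases hEG : e.support ⊆ G
  · have hTG : T G = V a G * CC a G e := by
      simp only [hT]
      rw [if_pos hEG]
    rw [hTG, Kid ha G e (by rw [hcard G hG]; exact he) hEG]
    rw [← sum_subset (sdiff_subset : G \ e.support ⊆ G)]
    · apply sum_congr rfl
      intro v hv
      simp only [hT]
      rw [if_pos]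
      intro x hx
      refine mem_erase.2 ⟨?_, hEG hx⟩
      rintro rfl
      exact (mem_sdiff.1 hv).2 hx
    · intro v hvG hv
      simp only [hT]
      rw [if_neg]
      intro h
      have hve : v ∈ e.support := by
        by_contra h'
        exact hv (mem_sdiff.2 ⟨hvG, h'⟩)
      exact notMem_erase v G (h hve)
  · have hTG : T G = 0 := by
      simp only [hT]
      rw [if_neg hEG]
    rw [hTG]
    symm
    apply sum_eq_zero
    intro v hv
    simp only [hT]
    rw [if_neg]
    intro h
    exact hEG (h.trans (erase_subset v G))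

/-- values of the functional on monomials -/
noncomputable def om (a : Fin n → F) (b : F) (d : ℕ) (cV : Ch (Fin n)) (e : Fin n →₀ ℕ) : F :=
  if (∑ u, e u) = d then
    ∑ G ∈ cV.support, (if e.support ⊆ G then BB a b e * V a G * sG a b G * CC a G e else 0)
  else 0

theorem om_theta [CharP F 2] {a : Fin n → F} (ha : Function.Injective a) {b : F}
    (hb : ∀ u, b ≠ a u)
    {Γ : Finset (Finset (Fin n))} (hdown : Down Γ) {P : Finset (Fin n) → Prop}
    (hP : ∀ s t, t ∈ Γ → P s → s ⊆ t → P t) {d : ℕ} {cV : Ch (Fin n)}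
    (hcard : ∀ s ∈ cV.support, s.card = d) (hΓ : ∀ s ∈ cV.support, s ∈ Γ)
    (hbd : ∀ s ∈ (bd cV).support, ¬ P s) (j : ℕ) (hj : j < d) (e : Fin n →₀ ℕ)
    (heP : e.support ∈ Γ → P e.support) :
    ∑ u, a u ^ j * om a b d cV (Finsupp.single u 1 + e) = 0 := by
  classical
  have hdeg : ∀ u : Fin n, ∑ w, ((Finsupp.single u 1 + e : Fin n →₀ ℕ) w) = (∑ w, e w) + 1 := by
    intro u
    simp only [Finsupp.add_apply, sum_add_distrib]
    rw [add_comm]
    congr 1
    simp [Finsupp.single_apply]
  by_cases he : (∑ w, e w) + 1 = d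
  · have hsup : ∀ u : Fin n, (Finsupp.single u 1 + e).support = insert u e.support := by
      intro u
      ext w
      simp only [Finsupp.mem_support_iff, Finsupp.add_apply, mem_insert, Finsupp.single_apply]
      by_cases h : u = w
      · subst h; simp
      · rw [if_neg h]
        constructor
        · intro h'; right; simpa using h'
        · rintro (h' | h')
          · exact absurd h'.symm h
          · simpa using h'
    have hBB : ∀ u : Fin n, BB a b (Finsupp.single u 1 + e) = (b - a u)⁻¹ * BB a b e := by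
      intro u
      rw [BB, BB]
      simp only [Finsupp.add_apply, pow_add, prod_mul_distrib]
      congr 1
      rw [prod_eq_single u]
      · simp
      · intro w _ hw
        rw [Finsupp.single_apply, if_neg (Ne.symm hw), pow_zero]
      · intro h; exact absurd (mem_univ u) h
    have hCC : ∀ (G : Finset (Fin n)) (u : Fin n),
        CC a G (Finsupp.single u 1 + e) = (cc a G u)⁻¹ * CC a G e := by
      intro G u
      rw [CC, CC]
      simp only [Finsupp.add_apply, pow_add, prod_mul_distrib]
      congr 1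
      rw [prod_eq_single u]
      · simp
      · intro w _ hw
        rw [Finsupp.single_apply, if_neg (Ne.symm hw), pow_zero]
      · intro h; exact absurd (mem_univ u) h
    have h1 : ∀ u : Fin n, a u ^ j * om a b d cV (Finsupp.single u 1 + e) =
        ∑ G ∈ cV.support, (if e.support ⊆ G then
          (if u ∈ G then BB a b e * V a G * CC a G e * (sG a b G *
            (a u ^ j * ((b - a u)⁻¹ * (cc a G u)⁻¹))) else 0) else 0) := by
      intro u
      rw [om, hdeg u, if_pos he, mul_sum]
      apply sum_congr rfl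
      intro G _
      rw [hsup u, hBB u, hCC G u]
      by_cases h1 : e.support ⊆ G
      · by_cases h2 : u ∈ G
        · rw [if_pos (insert_subset h2 h1), if_pos h1, if_pos h2]
          ring
        · rw [if_neg (fun h => h2 (h (mem_insert_self _ _))), if_pos h1, if_neg h2, mul_zero]
      · rw [if_neg (fun h => h1 ((subset_insert _ _).trans h)), if_neg h1, mul_zero]
    rw [sum_congr rfl fun u _ => h1 u, sum_comm]
    have h2 : ∀ G ∈ cV.support, ∑ u : Fin n, (if e.support ⊆ G then
          (if u ∈ G then BB a b e * V a G * CC a G e * (sG a b G *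
            (a u ^ j * ((b - a u)⁻¹ * (cc a G u)⁻¹))) else 0) else 0) =
        b ^ j * BB a b e * (if e.support ⊆ G then V a G * CC a G e else 0) := by
      intro G hG
      by_cases h1 : e.support ⊆ G
      · simp only [if_pos h1]
        rw [← sum_filter, filter_mem_eq_inter, univ_inter, ← mul_sum, ← mul_sum,
          lagr ha hb G j (by rw [hcard G hG]; exact hj)]
        ring
      · simp only [if_neg h1]
        simp
    rw [sum_congr rfl h2, ← mul_sum, K_zero ha hdown hP hcard hΓ hbd e he.symm heP, mul_zero]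
  · apply sum_eq_zero
    intro u _
    rw [om, hdeg u, if_neg he, mul_zero]

end Pool.Agent.RelH.Fn

namespace Pool.Agent.RelH

open Finset in
theorem functional {n : ℕ} {F : Type} [Field F] [CharP F 2] (a : Fin n → F)
    (ha : Function.Injective a) (b : F) (hb : ∀ u, b ≠ a u) (Γ : Finset (Finset (Fin n)))
    (hdown : Down Γ) (P : Finset (Fin n) → Prop) (hP : ∀ s t, t ∈ Γ → P s → s ⊆ t → P t)
    (d : ℕ) (cV : Ch (Fin n)) (hcard : ∀ s ∈ cV.support, s.card = d)
    (hΓ : ∀ s ∈ cV.support, s ∈ Γ) (hbd : ∀ s ∈ (bd cV).support, ¬ P s)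
    (G0 : Finset (Fin n)) (hG0 : G0 ∈ cV.support)
    (hA : ∀ s t : Finset (Fin n), (s ∈ Γ → P s) → s ⊆ t → (t ∈ Γ → P t))
    (hB : ∀ s t : Finset (Fin n), s ∉ Γ → s ⊆ t → t ∉ Γ) :
    (∏ u ∈ G0, MvPolynomial.X u : MvPolynomial (Fin n) F) ∉
      famI F (fun s => s ∉ Γ) hB ⊔
        Ideal.span (lf (fun j u => a u ^ j) '' Set.Iio d) *
          famI F (fun s => s ∈ Γ → P s) hA := by
  classical
  -- the functional
  let Ω : MvPolynomial (Fin n) F →ₗ[F] F :=
    (MvPolynomial.basisMonomials (Fin n) F).constr F (Fn.om a b d cV)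
  have hΩ1 : ∀ e : Fin n →₀ ℕ, Ω (MvPolynomial.monomial e 1) = Fn.om a b d cV e := by
    intro e
    have := (MvPolynomial.basisMonomials (Fin n) F).constr_basis F (Fn.om a b d cV) e
    rwa [MvPolynomial.coe_basisMonomials] at this
  have hΩ : ∀ (e : Fin n →₀ ℕ) (r : F), Ω (MvPolynomial.monomial e r) =
      r * Fn.om a b d cV e := by
    intro e r
    have : MvPolynomial.monomial e r = r • (MvPolynomial.monomial e (1 : F)) := by
      rw [MvPolynomial.smul_monomial, smul_eq_mul, mul_one]
    rw [this, map_smul, hΩ1, smul_eq_mul]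
  have hΩf : ∀ f : MvPolynomial (Fin n) F,
      Ω f = ∑ e ∈ f.support, f.coeff e * Fn.om a b d cV e := by
    intro f
    conv_lhs => rw [← f.support_sum_monomial_coeff]
    rw [map_sum]
    exact sum_congr rfl fun e _ => hΩ _ _
  -- kills the non-face ideal
  have hkill1 : ∀ f ∈ famI F (fun s => s ∉ Γ) hB, Ω f = 0 := by
    intro f hf
    rw [hΩf]
    apply sum_eq_zero
    intro e he
    have h1 : e.support ∉ Γ := hf e he
    rw [Fn.om]
    split_ifs with h
    · rw [sum_eq_zero, mul_zero]
      intro G hG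
      rw [if_neg]
      intro hsub
      exact h1 (hdown G (hΓ G hG) _ hsub)
    · rw [mul_zero]
  -- kills Θ A
  have hkill2 : ∀ f ∈ famI F (fun s => s ∈ Γ → P s) hA, ∀ j < d,
      Ω (lf (fun j u => a u ^ j) j * f) = 0 := by
    intro f hf j hj
    have h1 : lf (fun j u => a u ^ j) j * f =
        ∑ e ∈ f.support, ∑ u, MvPolynomial.monomial (Finsupp.single u 1 + e)
          (a u ^ j * f.coeff e) := by
      conv_lhs => rw [← f.support_sum_monomial_coeff]
      rw [mul_sum]
      apply sum_congr rfl
      intro e _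
      rw [lf, sum_mul]
      apply sum_congr rfl
      intro u _
      rw [MvPolynomial.C_mul_X_eq_monomial, MvPolynomial.monomial_mul]
    rw [h1, map_sum]
    apply sum_eq_zero
    intro e he
    rw [map_sum]
    have h2 : ∀ u ∈ (univ : Finset (Fin n)), Ω (MvPolynomial.monomial (Finsupp.single u 1 + e)
          (a u ^ j * f.coeff e)) =
        f.coeff e * (a u ^ j * Fn.om a b d cV (Finsupp.single u 1 + e)) := by
      intro u _
      rw [hΩ]
      ring
    rw [sum_congr rfl h2, ← mul_sum, Fn.om_theta ha hb hdown hP hcard hΓ hbd j hj e (hf e he),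
      mul_zero]
  have hkill3 : ∀ t ∈ Ideal.span (lf (fun j u => a u ^ j) '' Set.Iio d),
      ∀ f ∈ famI F (fun s => s ∈ Γ → P s) hA, Ω (t * f) = 0 := by
    intro t ht
    induction ht using Submodule.span_induction with
    | mem x hx =>
      obtain ⟨j, hj, rfl⟩ := hx
      intro f hf
      exact hkill2 f hf j hj
    | zero =>
      intro f _
      simp
    | add x y _ _ hx hy =>
      intro f hf
      rw [add_mul, map_add, hx f hf, hy f hf, add_zero]
    | smul r x _ hx =>
      intro f hf
      rw [smul_eq_mul, mul_comm r x, mul_assoc]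
      exact hx _ (Ideal.mul_mem_left _ r hf)
  have hkill4 : ∀ g ∈ Ideal.span (lf (fun j u => a u ^ j) '' Set.Iio d) *
          famI F (fun s => s ∈ Γ → P s) hA, Ω g = 0 := by
    intro g hg
    refine Submodule.mul_induction_on hg ?_ ?_
    · intro t ht f hf
      exact hkill3 t ht f hf
    · intro x y hx hy
      rw [map_add, hx, hy, add_zero]
  intro hmem
  obtain ⟨x, hx, y, hy, hxy⟩ := Submodule.mem_sup.1 hmem
  have h0 : Ω (∏ u ∈ G0, MvPolynomial.X u) = 0 := by
    rw [← hxy, map_add, hkill1 x hx, hkill4 y hy, add_zero]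
  -- the value is nonzero
  set e0 : Fin n →₀ ℕ := ∑ u ∈ G0, Finsupp.single u 1 with he0
  have hprod : (∏ u ∈ G0, MvPolynomial.X u : MvPolynomial (Fin n) F) =
      MvPolynomial.monomial e0 1 := by
    rw [he0, MvPolynomial.monomial_sum_one]
    rfl
  have he0a : ∀ w, e0 w = if w ∈ G0 then 1 else 0 := by
    intro w
    rw [he0, Finsupp.finsetSum_apply]
    simp [Finsupp.single_apply]
  have hsupp : e0.support = G0 := by
    ext w
    rw [Finsupp.mem_support_iff, he0a]
    simp
  have hdeg : ∑ u, e0 u = d := by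
    simp_rw [he0a]
    rw [sum_boole, filter_mem_eq_inter, univ_inter, hcard G0 hG0]
    simp
  rw [hprod, hΩ1, Fn.om, if_pos hdeg, hsupp, sum_eq_single G0] at h0
  · rw [if_pos (Finset.Subset.refl _)] at h0
    exact mul_ne_zero (mul_ne_zero (mul_ne_zero (Fn.BB_ne_zero hb _) (Fn.V_ne_zero ha _))
      (Fn.sG_ne_zero hb _)) (Fn.CC_ne_zero ha _ _) h0
  · intro G hG hne
    rw [if_neg]
    intro hsub
    exact hne (Finset.eq_of_subset_of_card_le hsub (by rw [hcard G hG, hcard G0 hG0])).symm
  · intro h
    exact absurd hG0 h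

end Pool.Agent.RelH
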