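import Pool.Agent.Lib_helper83.BallCM.Subdivision

/-!
The Sperner chain of a subdivision.
-/

namespace Pool.Agent.BallCM

variable {d n : ℕ} {Γ : Finset (Finset (Fin n))} {σ : Finset (Fin n) → Finset (Fin d)}

theorem dS_dS (c : SC n) : dS (dS c) = 0 := by
  have h1 : st (dS (dS c)) = 0 := by rw [← bd_st, ← bd_st, bd_bd]
  rw [← fc_st (dS (dS c)), h1, map_zero]

/-- pushforward of faces along a vertex map -/
noncomputable def mpS {m : ℕ} (L : Fin n → Fin m) : SC n →ₗ[ZMod 2] SC m :=
  fc ∘ₗ mp L ∘ₗ st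

theorem dS_mpS {m : ℕ} (L : Fin n → Fin m) (c : SC n) : dS (mpS L c) = mpS L (dS c) := by
  unfold mpS
  simp only [LinearMap.comp_apply]
  rw [dS_fc, bd_mp, bd_st]

theorem mpS_support {m : ℕ} (L : Fin n → Fin m) (c : SC n) {W : Finset (Fin m)}
    (h : mpS L c W ≠ 0) : ∃ s ∈ c.support, s.image L = W ∧ s.card = W.card := by
  unfold mpS at h
  simp only [LinearMap.comp_apply] at h
  have h1 : st c ∈ On (fun l => ∃ s ∈ c.support, l = s.sort (· ≤ ·)) := by
    apply st_mem_On
    intro F hF
    exact ⟨F, by simpa using hF, rfl⟩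
  have h2 : mp L (st c) ∈ On (fun l => ∃ s ∈ c.support, l = (s.sort (· ≤ ·)).map L) := by
    apply mp_mem_On L _ h1
    rintro l ⟨s, hs, rfl⟩
    exact ⟨s, hs, rfl⟩
  obtain ⟨l, ⟨s, hs, rfl⟩, hnd, hW⟩ := fc_support h2 h
  refine ⟨s, hs, ?_, ?_⟩
  · rw [← hW]
    ext a
    simp
  · rw [← hW, List.toFinset_card_of_nodup hnd]
    simp

/-- chains `c_W` with `∂ c_W = ∑ c_{W-w}` -/
theorem exists_chains (h0 : ∅ ∈ Γ) (hσ0 : σ ∅ = ∅)
    (hCM : ∀ U : Finset (Fin d), U.Nonempty → ∀ G ∈ Γ, σ G ⊆ U → ∀ k < U.card,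
      ∀ z : Finset (Fin n) → ZMod 2,
        (∀ F, z F ≠ 0 → F ∈ Γ ∧ σ F ⊆ U ∧ G ⊆ F ∧ F.card = k) →
        (∀ E, G ⊆ E → ∑ v ∈ Finset.univ \ E, z (insert v E) = 0) →
        ∃ u : Finset (Fin n) → ZMod 2,
          (∀ F, u F ≠ 0 → F ∈ Γ ∧ σ F ⊆ U ∧ G ⊆ F ∧ F.card = k + 1) ∧
          ∀ F, G ⊆ F → ∑ v ∈ Finset.univ \ F, u (insert v F) = z F) (N : ℕ) :
    ∃ c : Finset (Fin d) → SC n, c ∅ = Finsupp.single ∅ 1 ∧
      ∀ W : Finset (Fin d), W.card ≤ N →
        (∀ s, c W s ≠ 0 → s ∈ Γ ∧ σ s ⊆ W ∧ s.card = W.card) ∧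
        dS (c W) = ∑ w ∈ W, c (W.erase w) := by
  classical
  induction N with
  | zero =>
    refine ⟨fun _ => Finsupp.single ∅ 1, rfl, ?_⟩
    intro W hW
    have hW0 : W = ∅ := by
      rw [← Finset.card_eq_zero]; omega
    subst hW0
    refine ⟨?_, ?_⟩
    · intro s hs
      rw [Finsupp.single_apply] at hs
      split_ifs at hs with h
      · subst h
        exact ⟨h0, by rw [hσ0], rfl⟩
      · exact absurd rfl hs
    · rw [dS_single]
      simp
  | succ N ih =>
    obtain ⟨c, hc0, hc⟩ := ih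
    have key : ∀ W : Finset (Fin d), W.card = N + 1 → ∃ u : SC n,
        (∀ s, u s ≠ 0 → s ∈ Γ ∧ σ s ⊆ W ∧ s.card = W.card) ∧
        dS u = ∑ w ∈ W, c (W.erase w) := by
      intro W hW
      have hWne : W.Nonempty := by
        rw [← Finset.card_pos]; omega
      set zf : SC n := ∑ w ∈ W, c (W.erase w) with hzf
      have hz1 : ∀ F, zf F ≠ 0 → F ∈ Γ ∧ σ F ⊆ W ∧ (∅ : Finset (Fin n)) ⊆ F ∧ F.card = N := by
        intro F hF
        rw [hzf, Finsupp.finsetSum_apply] at hF
        obtain ⟨w, hw, hne⟩ := Finset.exists_ne_zero_of_sum_ne_zero hF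
        have hcard : (W.erase w).card = N := by
          rw [Finset.card_erase_of_mem hw, hW]; rfl
        obtain ⟨h1, h2, h3⟩ := (hc (W.erase w) (by omega)).1 F hne
        exact ⟨h1, h2.trans (Finset.erase_subset _ _), Finset.empty_subset _, by omega⟩
      have hz2 : dS zf = 0 := by
        rw [hzf, map_sum]
        have : ∀ w ∈ W, dS (c (W.erase w)) = ∑ w' ∈ W.erase w, c ((W.erase w).erase w') := by
          intro w hw
          have hcard : (W.erase w).card = N := by
            rw [Finset.card_erase_of_mem hw, hW]; rfl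
          exact (hc (W.erase w) (by omega)).2
        rw [Finset.sum_congr rfl this]
        rw [Finset.sum_sigma']
        apply Finset.sum_involution (fun x _ => ⟨x.2, x.1⟩)
        · rintro ⟨a, b⟩ hab
          simp only
          rw [Finset.erase_right_comm]
          exact sc_add_self _
        · rintro ⟨a, b⟩ hab hne
          simp only [Finset.mem_sigma, Finset.mem_erase] at hab
          intro heq
          simp only [Sigma.mk.injEq] at heq
          exact hab.2.1 heq.1
        · rintro ⟨a, b⟩ hab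
          rfl
        · rintro ⟨a, b⟩ hab
          simp only [Finset.mem_sigma, Finset.mem_erase] at hab ⊢
          exact ⟨hab.2.2, hab.2.1.symm, hab.1⟩
      obtain ⟨u, hu1, hu2⟩ := hCM W hWne ∅ h0 (by rw [hσ0]; exact Finset.empty_subset _) N
        (by omega) (fun F => zf F) hz1 (by
          intro E _
          rw [← dS_apply, hz2]
          rfl)
      refine ⟨Finsupp.equivFunOnFinite.symm u, ?_, ?_⟩
      · intro s hs
        obtain ⟨h1, h2, -, h3⟩ := hu1 s hs
        exact ⟨h1, h2, by omega⟩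
      · ext F
        rw [dS_apply]
        exact hu2 F (Finset.empty_subset _)
    choose! u hu1 hu2 using key
    refine ⟨fun W => if W.card = N + 1 then u W else c W, ?_, ?_⟩
    · have h1 : ¬ (∅ : Finset (Fin d)).card = N + 1 := by simp
      simp only [if_neg h1]
      exact hc0
    · intro W hW
      have hlt : ∀ W' : Finset (Fin d), W'.card ≤ N →
          (if W'.card = N + 1 then u W' else c W') = c W' := by
        intro W' hW'
        rw [if_neg (by omega)]
      have hsum : ∑ w ∈ W, (if (W.erase w).card = N + 1 then u (W.erase w)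
          else c (W.erase w)) = ∑ w ∈ W, c (W.erase w) := by
        apply Finset.sum_congr rfl
        intro w hw
        apply hlt
        have := Finset.card_erase_of_mem hw
        omega
      by_cases h : W.card = N + 1
      · simp only [if_pos h]
        refine ⟨hu1 W h, ?_⟩
        rw [hu2 W h, hsum]
      · simp only [if_neg h]
        rw [hsum]
        exact hc W (by omega)

/-- Sperner: the chain `c_V` contains a face labelled bijectively. -/
theorem sperner (h0 : ∅ ∈ Γ) (hσ0 : σ ∅ = ∅)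
    (hdown : ∀ G ∈ Γ, ∀ H : Finset (Fin n), H ⊆ G → H ∈ Γ)
    (hmono : ∀ G ∈ Γ, ∀ H : Finset (Fin n), H ⊆ G → σ H ⊆ σ G)
    (hCM : ∀ U : Finset (Fin d), U.Nonempty → ∀ G ∈ Γ, σ G ⊆ U → ∀ k < U.card,
      ∀ z : Finset (Fin n) → ZMod 2,
        (∀ F, z F ≠ 0 → F ∈ Γ ∧ σ F ⊆ U ∧ G ⊆ F ∧ F.card = k) →
        (∀ E, G ⊆ E → ∑ v ∈ Finset.univ \ E, z (insert v E) = 0) →
        ∃ u : Finset (Fin n) → ZMod 2,
          (∀ F, u F ≠ 0 → F ∈ Γ ∧ σ F ⊆ U ∧ G ⊆ F ∧ F.card = k + 1) ∧
          ∀ F, G ⊆ F → ∑ v ∈ Finset.univ \ F, u (insert v F) = z F)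
    (L : Fin n → Fin d) (hL : ∀ v, {v} ∈ Γ → L v ∈ σ {v}) :
    ∃ c : SC n, (∀ s, c s ≠ 0 → s ∈ Γ ∧ s.card = d) ∧
      (∀ s, dS c s ≠ 0 → σ s ≠ Finset.univ) ∧
      ∃ G0 : Finset (Fin n), c G0 ≠ 0 ∧ G0.image L = Finset.univ ∧ G0.card = d := by
  classical
  obtain ⟨c, hc0, hc⟩ := exists_chains h0 hσ0 hCM d
  have hcard : ∀ W : Finset (Fin d), W.card ≤ d := fun W => by
    simpa using Finset.card_le_univ W
  have hpush : ∀ (N : ℕ) (W : Finset (Fin d)), W.card = N →
      mpS L (c W) = Finsupp.single W 1 := by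
    intro N
    induction N with
    | zero =>
      intro W hW
      have hW0 : W = ∅ := by rwa [Finset.card_eq_zero] at hW
      subst hW0
      rw [hc0]
      unfold mpS
      simp [st_single, fc_single, fcL]
    | succ N ih =>
      intro W hW
      have hbd : dS (mpS L (c W)) = dS (Finsupp.single W 1) := by
        rw [dS_mpS, (hc W (hcard W)).2, map_sum, dS_single]
        apply Finset.sum_congr rfl
        intro w hw
        apply ih
        rw [Finset.card_erase_of_mem hw, hW]
        rfl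
      have hsupp : ∀ E, mpS L (c W) E ≠ 0 → E = W := by
        intro E hE
        obtain ⟨s, hs, h1, h2⟩ := mpS_support L (c W) hE
        have hs' := (hc W (hcard W)).1 s (by simpa using hs)
        apply Finset.eq_of_subset_of_card_le
        · rw [← h1]
          intro a ha
          rw [Finset.mem_image] at ha
          obtain ⟨v, hv, rfl⟩ := ha
          have hvΓ : {v} ∈ Γ := hdown s hs'.1 _ (Finset.singleton_subset_iff.2 hv)
          exact hs'.2.1 (hmono s hs'.1 _ (Finset.singleton_subset_iff.2 hv) (hL v hvΓ))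
        · omega
      have hform : mpS L (c W) = Finsupp.single W (mpS L (c W) W) := by
        ext E
        by_cases hE : E = W
        · subst hE; simp
        · rw [Finsupp.single_apply, if_neg (Ne.symm hE)]
          by_contra h
          exact hE (hsupp E h)
      have hWne : W.Nonempty := by rw [← Finset.card_pos]; omega
      obtain ⟨w, hw⟩ := hWne
      have h1 : (dS (mpS L (c W))) (W.erase w) = (dS (Finsupp.single W 1 : SC d)) (W.erase w) := by
        rw [hbd]
      rw [hform, dS_single, dS_single, Finsupp.finsetSum_apply, Finsupp.finsetSum_apply] at h1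
      have h2 : ∀ a : ZMod 2, ∑ v ∈ W, (Finsupp.single (W.erase v) a : SC d) (W.erase w) = a := by
        intro a
        rw [Finset.sum_eq_single w]
        · simp
        · intro v hv hvw
          rw [Finsupp.single_apply, if_neg]
          intro heq
          have : v ∈ W.erase v := by
            rw [heq]
            exact Finset.mem_erase.2 ⟨hvw, hv⟩
          exact Finset.notMem_erase v W this
        · intro h; exact absurd hw h
      rw [h2, h2] at h1
      rw [hform, h1]
  refine ⟨c Finset.univ, ?_, ?_, ?_⟩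
  · intro s hs
    obtain ⟨h1, h2, h3⟩ := (hc _ (hcard _)).1 s hs
    exact ⟨h1, by simpa using h3⟩
  · intro s hs hσ
    rw [(hc _ (hcard _)).2, Finsupp.finsetSum_apply] at hs
    obtain ⟨w, hw, hne⟩ := Finset.exists_ne_zero_of_sum_ne_zero hs
    obtain ⟨h1, h2, h3⟩ := (hc _ (hcard _)).1 s hne
    rw [hσ] at h2
    exact Finset.notMem_erase w Finset.univ (h2 (Finset.mem_univ w))
  · have h1 : mpS L (c Finset.univ) Finset.univ ≠ 0 := by
      rw [hpush d Finset.univ (by simp)]
      simp
    obtain ⟨s, hs, h2, h3⟩ := mpS_support L _ h1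
    exact ⟨s, by simpa using hs, h2, by simpa using h3⟩

end Pool.Agent.BallCM
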