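import Pool.Agent.Lib_helper83.BallCM.Convex

/-!
Pushing a small chain of low dimension in a ball off a point.
-/

namespace Pool.Agent.BallCM

theorem On_and {X : Type*} {P Q : List X → Prop} {c : Ch X} (h1 : c ∈ On P) (h2 : c ∈ On Q) :
    c ∈ On (fun l => P l ∧ Q l) := by
  rw [mem_On] at *
  exact fun l hl => ⟨h1 l hl, h2 l hl⟩

theorem ext_single_id {X : Type*} (c : Ch X) :
    ext (fun l : List X => Finsupp.single l (1 : ZMod 2)) c = c := by
  rw [ext_apply]
  simp only [Finsupp.smul_single, smul_eq_mul, mul_one]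
  exact Finsupp.sum_single _

theorem mp_id_of {X : Type*} {f : X → X} (hf : ∀ x, f x = x) (c : Ch X) : mp f c = c := by
  have : f = id := funext hf
  rw [this]
  simp [mp]

theorem hull_isCompact {E : Type*} [NormedAddCommGroup E] [NormedSpace ℝ E] (l : List E) :
    IsCompact (hull l) := by
  have : ({x | x ∈ l} : Set E).Finite := l.finite_toSet
  exact this.isCompact_convexHull ℝ

/-- a generic point avoids finitely many hulls of few points -/
theorem generic_point {m : ℕ} (W : Finset (List (EuclideanSpace ℝ (Fin m)))) {k : ℕ} (hk : k ≤ m)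
    (hW : ∀ l ∈ W, l.length = k) (p : EuclideanSpace ℝ (Fin m)) {r : ℝ} (hr : 0 < r) :
    ∃ p' ∈ Metric.ball p r, ∀ l ∈ W, p' ∉ hull l := by
  by_contra hcon
  push Not at hcon
  have hsub : Metric.ball p r ⊆ ⋃ l ∈ W, (affineSpan ℝ {x | x ∈ l} :
      Set (EuclideanSpace ℝ (Fin m))) := by
    intro x hx
    obtain ⟨l, hl, hxl⟩ := hcon x hx
    rw [Set.mem_iUnion₂]
    exact ⟨l, hl, convexHull_subset_affineSpan _ hxl⟩
  have hnull : ∀ l ∈ W, MeasureTheory.volume (affineSpan ℝ {x | x ∈ l} :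
      Set (EuclideanSpace ℝ (Fin m))) = 0 := by
    intro l hl
    apply MeasureTheory.Measure.addHaar_affineSubspace
    intro htop
    have hlen := hW l hl
    rcases l with _ | ⟨a, l⟩
    · simp at htop
    · have h1 : Module.finrank ℝ (vectorSpan ℝ (Set.range (a :: l).get)) ≤ l.length := by
        apply finrank_vectorSpan_range_le
        simp
      rw [Set.range_list_get] at h1
      have h2 : (affineSpan ℝ {x | x ∈ a :: l}).direction = ⊤ := by
        rw [htop, AffineSubspace.direction_top]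
      rw [direction_affineSpan] at h2
      rw [h2, finrank_top, finrank_euclideanSpace_fin] at h1
      simp at hlen
      omega
  have h0 : MeasureTheory.volume (⋃ l ∈ W, (affineSpan ℝ {x | x ∈ l} :
      Set (EuclideanSpace ℝ (Fin m)))) = 0 :=
    (MeasureTheory.measure_biUnion_null_iff (I := (W : Set (List (EuclideanSpace ℝ (Fin m)))))
      W.countable_toSet).2 hnull
  have h1 := MeasureTheory.measure_mono_null hsub h0
  have h2 := Metric.measure_ball_pos MeasureTheory.volume p hr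
  exact h2.ne' h1

section push
variable {E : Type*} [NormedAddCommGroup E] [NormedSpace ℝ E]

/-- radial push away from `q` -/
noncomputable def psh (q : E) (R t : ℝ) (y : E) : E :=
  q + (1 + t * (max 1 (R / ‖y - q‖) - 1)) • (y - q)

theorem psh_far {q : E} {R t : ℝ} {y : E} (hR : 0 < R) (h : R ≤ ‖y - q‖) : psh q R t y = y := by
  have h1 : R / ‖y - q‖ ≤ 1 := by
    rw [div_le_one (lt_of_lt_of_le hR h)]
    exact h
  unfold psh
  rw [max_eq_left h1]
  simp

theorem psh_zero {q : E} {R : ℝ} (y : E) : psh q R 0 y = y := by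
  unfold psh
  simp

theorem psh_near {q : E} {R t : ℝ} {y : E} (hy : 0 < ‖y - q‖) (h : ‖y - q‖ ≤ R)
    (ht0 : 0 ≤ t) : ‖psh q R t y - q‖ = (1 - t) * ‖y - q‖ + t * R := by
  have h1 : 1 ≤ R / ‖y - q‖ := by
    rw [le_div_iff₀ hy]
    linarith
  unfold psh
  rw [max_eq_right h1, add_sub_cancel_left, norm_smul, Real.norm_eq_abs, abs_of_nonneg]
  · field_simp
    ring
  · have : 0 ≤ t * (R / ‖y - q‖ - 1) := mul_nonneg ht0 (by linarith)
    linarith

theorem psh_continuousOn (q : E) (R : ℝ) {s : ℝ} (hs : 0 < s) :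
    ContinuousOn (fun x : ℝ × E => psh q R x.1 x.2) {x | s ≤ ‖x.2 - q‖} := by
  unfold psh
  apply ContinuousOn.add continuousOn_const
  apply ContinuousOn.smul
  · apply ContinuousOn.add continuousOn_const
    apply ContinuousOn.mul continuous_fst.continuousOn
    apply ContinuousOn.sub _ continuousOn_const
    apply ContinuousOn.sup continuousOn_const
    apply ContinuousOn.div continuousOn_const
    · exact (Continuous.norm (by fun_prop)).continuousOn
    · intro x hx
      have : 0 < ‖x.2 - q‖ := lt_of_lt_of_le hs hx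
      exact this.ne'
  · exact (by fun_prop : Continuous fun x : ℝ × E => x.2 - q).continuousOn

end push

/-- positive distance from finitely many hulls -/
theorem pos_dist_hulls {E : Type*} [NormedAddCommGroup E] [NormedSpace ℝ E]
    (W : Finset (List E)) (q : E) (h : ∀ l ∈ W, q ∉ hull l) :
    ∃ s : ℝ, 0 < s ∧ ∀ l ∈ W, ∀ y ∈ hull l, s ≤ dist y q := by
  classical
  induction W using Finset.induction_on with
  | empty => exact ⟨1, one_pos, by simp⟩
  | insert l W hl ih =>
    obtain ⟨s, hs, hs'⟩ := ih (fun l' hl' => h l' (Finset.mem_insert_of_mem hl'))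
    have hq := h l (Finset.mem_insert_self _ _)
    have hclosed : IsClosed (hull l) := (hull_isCompact l).isClosed
    obtain ⟨r, hr, hr'⟩ := Metric.isOpen_iff.1 hclosed.isOpen_compl q hq
    refine ⟨min s r, lt_min hs hr, ?_⟩
    intro l' hl' y hy
    rw [Finset.mem_insert] at hl'
    rcases hl' with rfl | hl'
    · refine (min_le_right _ _).trans ?_
      by_contra hlt
      push Not at hlt
      exact hr' (Metric.mem_ball.2 hlt) hy
    · exact (min_le_left _ _).trans (hs' l' hl' y hy)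

/-- the conclusion of the pushing lemma -/
def PushProp (m : ℕ) (k : ℕ) (p : EuclideanSpace ℝ (Fin m)) (r1 : ℝ) : Prop :=
  ∃ r2 : ℝ, 0 < r2 ∧ ∀ δ : ℝ, 0 < δ → ∃ δ' : ℝ, 0 < δ' ∧
    ∀ w : Ch (EuclideanSpace ℝ (Fin m)),
      w ∈ On (fun l => l.length = k ∧ (∀ y ∈ l, ‖y‖ ≤ 1) ∧ Small δ' l) →
      bd w ∈ On (fun l => ∀ y ∈ l, r1 ≤ dist y p) →
      ∃ u ∈ On (fun l : List (EuclideanSpace ℝ (Fin m)) =>
          l.length = k + 1 ∧ (∀ y ∈ l, ‖y‖ ≤ 1) ∧ Small δ l),
        bd u + w ∈ On (fun l => l.length = k ∧ (∀ y ∈ l, ‖y‖ ≤ 1) ∧ Small δ l ∧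
          ∀ y ∈ l, r2 ≤ dist y p)

theorem push_boundary {m : ℕ} (p : EuclideanSpace ℝ (Fin m)) (hp : ‖p‖ = 1) {r1 : ℝ}
    (hr1 : 0 < r1) (k : ℕ) : PushProp m k p r1 := by
  set τ : ℝ := min r1 1 / 2 with hτ
  have hτ0 : 0 < τ := by positivity
  have hτ1 : τ ≤ 1 / 2 := by
    rw [hτ]; linarith [min_le_right r1 1]
  have hτ2 : 2 * τ ≤ r1 := by
    rw [hτ]; linarith [min_le_left r1 1]
  refine ⟨τ, hτ0, ?_⟩
  intro δ hδ
  refine ⟨δ / 2, by positivity, ?_⟩
  intro w hw hbw
  obtain ⟨n, hn⟩ := exists_nat_gt (2 * τ / δ)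
  have hn0 : (0 : ℝ) < n := lt_trans (by positivity) hn
  have hτn : τ / n ≤ δ / 2 := by
    rw [div_le_iff₀ hn0]
    rw [div_lt_iff₀ hδ] at hn
    linarith
  let f : ℕ → EuclideanSpace ℝ (Fin m) → EuclideanSpace ℝ (Fin m) :=
    fun i y => (1 - τ * ((i : ℝ) / n)) • y
  have ht : ∀ i : ℕ, i ≤ n → 0 ≤ (i : ℝ) / n ∧ (i : ℝ) / n ≤ 1 := by
    intro i hi
    refine ⟨by positivity, ?_⟩
    rw [div_le_one hn0]
    exact_mod_cast hi
  have hcoef : ∀ i : ℕ, i ≤ n → 0 ≤ 1 - τ * ((i : ℝ) / n) ∧ 1 - τ * ((i : ℝ) / n) ≤ 1 := by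
    intro i hi
    obtain ⟨h1, h2⟩ := ht i hi
    constructor
    · nlinarith
    · nlinarith
  have hnorm : ∀ i : ℕ, i ≤ n → ∀ y, ‖f i y‖ ≤ ‖y‖ := by
    intro i hi y
    obtain ⟨h1, h2⟩ := hcoef i hi
    simp only [f]
    rw [norm_smul, Real.norm_eq_abs, abs_of_nonneg h1]
    nlinarith [norm_nonneg y]
  have hd1 : ∀ i : ℕ, i ≤ n → ∀ x y, dist (f i x) (f i y) ≤ dist x y := by
    intro i hi x y
    obtain ⟨h1, h2⟩ := hcoef i hi
    have : f i x - f i y = (1 - τ * ((i : ℝ) / n)) • (x - y) := by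
      simp only [f]; module
    rw [dist_eq_norm, this, norm_smul, dist_eq_norm, Real.norm_eq_abs, abs_of_nonneg h1]
    nlinarith [norm_nonneg (x - y)]
  have hd2 : ∀ i : ℕ, ∀ y : EuclideanSpace ℝ (Fin m), ‖y‖ ≤ 1 →
      dist (f i y) (f (i + 1) y) ≤ δ / 2 := by
    intro i y hy
    have : f i y - f (i + 1) y = (τ / n) • y := by
      simp only [f]
      push_cast
      rw [← sub_smul]
      congr 1
      ring
    rw [dist_eq_norm, this, norm_smul, Real.norm_eq_abs, abs_of_nonneg (by positivity)]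
    calc τ / n * ‖y‖ ≤ τ / n * 1 := by gcongr
      _ = τ / n := by ring
      _ ≤ δ / 2 := hτn
  have hd3 : ∀ i : ℕ, i ≤ n → ∀ y : EuclideanSpace ℝ (Fin m), ‖y‖ ≤ 1 →
      dist (f i y) y ≤ τ := by
    intro i hi y hy
    obtain ⟨h1, h2⟩ := ht i hi
    have : f i y - y = (-(τ * ((i : ℝ) / n))) • y := by
      simp only [f]; module
    rw [dist_eq_norm, this, norm_smul, norm_neg, Real.norm_eq_abs, abs_of_nonneg (by positivity)]
    have h3 : τ * ((i : ℝ) / n) ≤ τ := by nlinarith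
    calc τ * ((i : ℝ) / n) * ‖y‖ ≤ τ * 1 := by
          apply mul_le_mul h3 hy (norm_nonneg y) hτ0.le
      _ = τ := by ring
  have hfn : ∀ y : EuclideanSpace ℝ (Fin m), ‖y‖ ≤ 1 → τ ≤ dist (f n y) p := by
    intro y hy
    have h1 : ‖f n y‖ ≤ 1 - τ := by
      simp only [f]
      rw [div_self hn0.ne', mul_one, norm_smul, Real.norm_eq_abs, abs_of_nonneg (by linarith)]
      nlinarith
    have h2 : ‖p‖ - ‖f n y‖ ≤ ‖f n y - p‖ := by
      rw [norm_sub_rev]
      exact norm_sub_norm_le p (f n y)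
    rw [dist_eq_norm]
    linarith
  have hf0 : ∀ y, f 0 y = y := by
    intro y; simp [f]
  have hsm : ∀ i < n, ∀ l : List (EuclideanSpace ℝ (Fin m)), (∀ y ∈ l, ‖y‖ ≤ 1) →
      Small (δ / 2) l → ∀ l' : List (EuclideanSpace ℝ (Fin m)),
      (∀ y ∈ l', ∃ x ∈ l, y = f i x ∨ y = f (i + 1) x) → Small δ l' := by
    intro i hi l h2 h3 l' h6 y hy y' hy'
    obtain ⟨x, hx, h⟩ := h6 y hy
    obtain ⟨x', hx', h'⟩ := h6 y' hy'
    have e1 := hd1 i hi.le x x'
    have e2 := hd1 (i + 1) hi x x'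
    have e3 := hd2 i x (h2 x hx)
    have e4 := hd2 i x' (h2 x' hx')
    have e5 := h3 x hx x' hx'
    rcases h with rfl | rfl <;> rcases h' with rfl | rfl
    · linarith
    · linarith [dist_triangle (f i x) (f i x') (f (i + 1) x')]
    · rw [dist_comm] at e3
      linarith [dist_triangle (f (i + 1) x) (f i x) (f i x')]
    · linarith
  refine ⟨prN f n w, ?_, ?_⟩
  · apply prN_mem_On f n _ hw
    rintro l ⟨h1, h2, h3⟩ i hi l' h5 h6
    refine ⟨by omega, ?_, hsm i hi l h2 h3 l' h6⟩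
    intro y hy
    obtain ⟨x, hx, h | h⟩ := h6 y hy
    · rw [h]; exact (hnorm i hi.le x).trans (h2 x hx)
    · rw [h]; exact (hnorm (i + 1) hi x).trans (h2 x hx)
  · have hid : bd (prN f n w) + w = mp (f n) w + prN f n (bd w) := by
      rw [bd_prN, mp_id_of hf0]
      have h2 := ch_add_self w
      have h3 : ∀ a b c : Ch (EuclideanSpace ℝ (Fin m)), a + a = 0 → a + b + c + a = b + c := by
        intro a b c ha
        have : a + b + c + a = b + c + (a + a) := by abel
        rw [this, ha, add_zero]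
      exact h3 _ _ _ h2
    rw [hid]
    apply Submodule.add_mem
    · apply mp_mem_On (f n) _ hw
      rintro l ⟨h1, h2, h3⟩
      refine ⟨by simp [h1], ?_, ?_, ?_⟩
      · intro y hy
        rw [List.mem_map] at hy
        obtain ⟨x, hx, rfl⟩ := hy
        exact (hnorm n le_rfl x).trans (h2 x hx)
      · intro y hy y' hy'
        rw [List.mem_map] at hy hy'
        obtain ⟨x, hx, rfl⟩ := hy
        obtain ⟨x', hx', rfl⟩ := hy'
        have := hd1 n le_rfl x x'
        have := h3 x hx x' hx'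
        linarith
      · intro y hy
        rw [List.mem_map] at hy
        obtain ⟨x, hx, rfl⟩ := hy
        exact hfn x (h2 x hx)
    · have hb : bd w ∈ On (fun l => (l.length + 1 = k ∧ (∀ y ∈ l, ‖y‖ ≤ 1) ∧ Small (δ / 2) l) ∧
          ∀ y ∈ l, r1 ≤ dist y p) := by
        apply On_and _ hbw
        apply bd_mem_On _ hw
        rintro l ⟨h1, h2, h3⟩ l' h4 h5
        exact ⟨by omega, fun y hy => h2 y (h4.subset hy),
          fun x hx y hy => h3 x (h4.subset hx) y (h4.subset hy)⟩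
      apply prN_mem_On f n _ hb
      rintro l ⟨⟨h1, h2, h3⟩, h4⟩ i hi l' h5 h6
      refine ⟨by omega, ?_, hsm i hi l h2 h3 l' h6, ?_⟩
      · intro y hy
        obtain ⟨x, hx, h | h⟩ := h6 y hy
        · rw [h]; exact (hnorm i hi.le x).trans (h2 x hx)
        · rw [h]; exact (hnorm (i + 1) hi x).trans (h2 x hx)
      · intro y hy
        obtain ⟨x, hx, h | h⟩ := h6 y hy
        · rw [h]
          have e1 := h4 x hx
          have e2 := hd3 i hi.le x (h2 x hx)
          rw [dist_comm] at e2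
          linarith [dist_triangle x (f i x) p]
        · rw [h]
          have e1 := h4 x hx
          have e2 := hd3 (i + 1) hi x (h2 x hx)
          rw [dist_comm] at e2
          linarith [dist_triangle x (f (i + 1) x) p]

theorem push_interior {m : ℕ} (p : EuclideanSpace ℝ (Fin m)) (hp : ‖p‖ < 1) {r1 : ℝ}
    (hr1 : 0 < r1) {k : ℕ} (hk : k ≤ m) : PushProp m k p r1 := by
  classical
  set ρ : ℝ := min r1 (1 - ‖p‖) / 4 with hρ
  have hρ0 : 0 < ρ := by
    have : 0 < min r1 (1 - ‖p‖) := lt_min hr1 (by linarith)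
    positivity
  have hρ1 : 4 * ρ ≤ r1 := by rw [hρ]; linarith [min_le_left r1 (1 - ‖p‖)]
  have hρ2 : 4 * ρ ≤ 1 - ‖p‖ := by rw [hρ]; linarith [min_le_right r1 (1 - ‖p‖)]
  refine ⟨ρ, hρ0, ?_⟩
  intro δ hδ
  refine ⟨min δ (ρ / 2), by positivity, ?_⟩
  intro w hw hbw
  -- the generic point
  obtain ⟨q, hqp, hq⟩ := generic_point w.support hk (fun l hl => ((mem_On.1 hw) l hl).1) p
    (half_pos hρ0)
  rw [Metric.mem_ball] at hqp
  obtain ⟨s, hs, hs'⟩ := pos_dist_hulls w.support q hq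
  set R : ℝ := 2 * ρ with hR
  have hR0 : 0 < R := by positivity
  let A : Set (EuclideanSpace ℝ (Fin m)) := {y | ‖y‖ ≤ 1 ∧ s ≤ ‖y - q‖}
  have hA : IsCompact A := by
    have h1 : A = Metric.closedBall 0 1 ∩ {y | s ≤ ‖y - q‖} := by
      ext y
      simp [A]
    rw [h1]
    apply (isCompact_closedBall _ _).inter_right
    exact isClosed_le continuous_const (by fun_prop)
  have hK : IsCompact (Set.Icc (0 : ℝ) 1 ×ˢ A) := isCompact_Icc.prod hA
  have hcont : ContinuousOn (fun x : ℝ × EuclideanSpace ℝ (Fin m) => psh q R x.1 x.2)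
      (Set.Icc (0 : ℝ) 1 ×ˢ A) :=
    (psh_continuousOn q R hs).mono (fun x hx => hx.2.2)
  have hunif := hK.uniformContinuousOn_of_continuous hcont
  rw [Metric.uniformContinuousOn_iff_le] at hunif
  obtain ⟨ε, hε, hε'⟩ := hunif δ hδ
  obtain ⟨n, hn⟩ := exists_nat_gt (1 / ε)
  have hn0 : (0 : ℝ) < n := lt_trans (by positivity) hn
  have hεn : 1 / (n : ℝ) ≤ ε := by
    rw [div_le_iff₀ hn0]
    rw [div_lt_iff₀ hε] at hn
    linarith
  obtain ⟨S, D, hS0, hD0, hS, hD, hSC, hDC⟩ := exists_subdiv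
    (E := EuclideanSpace ℝ (Fin m)) hε (k + 1)
  let f : ℕ → EuclideanSpace ℝ (Fin m) → EuclideanSpace ℝ (Fin m) :=
    fun i y => psh q R ((i : ℝ) / n) y
  have ht : ∀ i : ℕ, i ≤ n → 0 ≤ (i : ℝ) / n ∧ (i : ℝ) / n ≤ 1 := by
    intro i hi
    refine ⟨by positivity, ?_⟩
    rw [div_le_one hn0]
    exact_mod_cast hi
  have hf0 : ∀ y, f 0 y = y := by
    intro y
    simp only [f, Nat.cast_zero, zero_div]
    exact psh_zero y
  -- closeness
  have hd : ∀ i j : ℕ, i ≤ n → j ≤ n → |(i : ℝ) - j| ≤ 1 → ∀ x ∈ A, ∀ y ∈ A, dist x y ≤ ε →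
      dist (f i x) (f j y) ≤ δ := by
    intro i j hi hj hij x hx y hy hxy
    apply hε' ((i : ℝ) / n, x) ⟨ht i hi, hx⟩ ((j : ℝ) / n, y) ⟨ht j hj, hy⟩
    rw [Prod.dist_eq]
    apply max_le _ hxy
    rw [Real.dist_eq, ← sub_div, abs_div, abs_of_pos hn0]
    calc |(i : ℝ) - j| / n ≤ 1 / n := by gcongr
      _ ≤ ε := hεn
  have hfar : ∀ i : ℕ, ∀ y, R ≤ ‖y - q‖ → f i y = y := fun i y hy => psh_far hR0 hy
  have hball : ∀ i : ℕ, i ≤ n → ∀ y ∈ A, ‖f i y‖ ≤ 1 := by
    intro i hi y hy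
    by_cases h : R ≤ ‖y - q‖
    · rw [hfar i y h]; exact hy.1
    · push Not at h
      have h1 := psh_near (q := q) (R := R) (t := (i : ℝ) / n) (lt_of_lt_of_le hs hy.2) h.le
        (ht i hi).1
      have h2 : ‖f i y - q‖ ≤ R := by
        simp only [f]
        rw [h1]
        obtain ⟨h3, h4⟩ := ht i hi
        nlinarith
      have h5 : ‖f i y‖ ≤ ‖f i y - q‖ + ‖q - p‖ + ‖p‖ := by
        calc ‖f i y‖ = ‖(f i y - q) + (q - p) + p‖ := by congr 1; abel
          _ ≤ ‖(f i y - q) + (q - p)‖ + ‖p‖ := norm_add_le _ _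
          _ ≤ ‖f i y - q‖ + ‖q - p‖ + ‖p‖ := by gcongr; exact norm_add_le _ _
      rw [dist_eq_norm] at hqp
      linarith
  have hfn : ∀ y ∈ A, ρ ≤ dist (f n y) p := by
    intro y hy
    have h1 : R ≤ ‖f n y - q‖ := by
      by_cases h : R ≤ ‖y - q‖
      · rw [hfar n y h]; exact h
      · push Not at h
        have h1 := psh_near (q := q) (R := R) (t := (n : ℝ) / n) (lt_of_lt_of_le hs hy.2) h.le
          (ht n le_rfl).1
        simp only [f]
        rw [h1, div_self hn0.ne']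
        linarith
    rw [← dist_eq_norm] at h1
    have h2 := dist_triangle (f n y) p q
    rw [dist_comm p q] at h2
    linarith
  -- w has entries with hull in A
  have hw' : w ∈ On (fun l => (l.length = k ∧ (∀ y ∈ l, ‖y‖ ≤ 1) ∧ Small (min δ (ρ / 2)) l) ∧
      ∀ y ∈ hull l, y ∈ A) := by
    rw [mem_On] at hw ⊢
    intro l hl
    refine ⟨hw l hl, ?_⟩
    intro y hy
    have h1 : hull l ⊆ Metric.closedBall 0 1 := by
      apply convexHull_min _ (convex_closedBall 0 1)
      intro x hx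
      rw [mem_closedBall_zero_iff]
      exact (hw l hl).2.1 x hx
    refine ⟨by simpa using h1 hy, ?_⟩
    rw [← dist_eq_norm]
    exact hs' l hl y hy
  have hbw' : bd w ∈ On (fun l => (l.length + 1 = k ∧ Small (min δ (ρ / 2)) l ∧
      ∀ y ∈ hull l, y ∈ A) ∧ ∀ y ∈ l, r1 ≤ dist y p) := by
    apply On_and _ hbw
    apply bd_mem_On _ hw'
    rintro l ⟨⟨h1, h2, h3⟩, h6⟩ l' h4 h5
    exact ⟨by omega, fun x hx y hy => h3 x (h4.subset hx) y (h4.subset hy),
      fun y hy => h6 y (hull_mono h4 hy)⟩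
  have hbw'' : bd w ∈ On (fun l => (l.length + 1 = k ∧ Small (min δ (ρ / 2)) l ∧
      ∀ y ∈ hull l, y ∈ A) ∧ ∀ y ∈ hull l, 3 * ρ ≤ dist y p) := by
    apply On_mono _ hbw'
    rintro l ⟨⟨h1, h2, h3⟩, h4⟩
    refine ⟨⟨h1, h2, h3⟩, ?_⟩
    intro y hy
    have hne : l ≠ [] := by
      rintro rfl
      simp [hull] at hy
    obtain ⟨x, hx⟩ := List.exists_mem_of_ne_nil l hne
    have e1 := hull_small h2 (mem_hull hx) hy
    have e2 := h4 x hx
    have e3 := dist_triangle x y p
    linarith [min_le_right δ (ρ / 2)]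
  have hfix : ∀ y, 3 * ρ ≤ dist y p → R ≤ ‖y - q‖ := by
    intro y hy
    rw [← dist_eq_norm]
    have := dist_triangle y q p
    linarith
  have hwN : w ∈ On (fun l : List (EuclideanSpace ℝ (Fin m)) => l.length ≤ k + 1) :=
    On_mono (fun l h => by have := h.1; omega) hw
  have hbwN : bd w ∈ On (fun l : List (EuclideanSpace ℝ (Fin m)) => l.length ≤ k + 1) :=
    On_mono (fun l h => by have := h.1.1; omega) hbw'
  have hSw : ext S w ∈ On (fun l => l.length = k ∧ (∀ y ∈ l, y ∈ A) ∧ Small ε l) := by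
    apply ext_mem_On _ _ hw'
    rintro l ⟨⟨h1, h2, h3⟩, h4⟩
    apply On_mono _ (hSC l (by omega))
    rintro l' ⟨h5, h6, h7⟩
    refine ⟨by omega, fun y hy => h4 y (h6 y hy), h7.mono ?_⟩
    have : (0 : ℝ) ≤ (1 / 2) ^ l.length := by positivity
    nlinarith
  have hSbw : ext S (bd w) ∈ On (fun l => l.length + 1 = k ∧ (∀ y ∈ l, y ∈ A) ∧ Small ε l ∧
      ∀ y ∈ l, 3 * ρ ≤ dist y p) := by
    apply ext_mem_On _ _ hbw''
    rintro l ⟨⟨h1, h2, h3⟩, h4⟩
    apply On_mono _ (hSC l (by omega))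
    rintro l' ⟨h5, h6, h7⟩
    refine ⟨by omega, fun y hy => h3 y (h6 y hy), h7.mono ?_, fun y hy => h4 y (h6 y hy)⟩
    have : (0 : ℝ) ≤ (1 / 2) ^ l.length := by positivity
    nlinarith
  have hid : bd (ext D w + prN f n (ext S w)) + w =
      ext D (bd w) + mp (f n) (ext S w) + prN f n (ext S (bd w)) := by
    rw [map_add, homotopy_ext hD hwN, ext_single_id, bd_prN, mp_id_of hf0, chainmap_ext hS hwN]
    have h2 := ch_add_self w
    have h3 := ch_add_self (ext S w)
    have h4 : ∀ a b c d e : Ch (EuclideanSpace ℝ (Fin m)), a + a = 0 → b + b = 0 →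
        b + a + c + (b + d + e) + a = c + d + e := by
      intro a b c d e ha hb
      have : b + a + c + (b + d + e) + a = c + d + e + (a + a) + (b + b) := by abel
      rw [this, ha, hb, add_zero, add_zero]
    exact h4 _ _ _ _ _ h2 h3
  refine ⟨ext D w + prN f n (ext S w), ?_, ?_⟩
  · apply Submodule.add_mem
    · apply ext_mem_On _ _ hw'
      rintro l ⟨⟨h1, h2, h3⟩, h4⟩
      apply On_mono _ (hDC l (by omega))
      rintro l' ⟨h5, h6⟩
      refine ⟨by omega, fun y hy => (h4 y (h6 y hy)).1, ?_⟩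
      intro y hy y' hy'
      exact (hull_small h3 (h6 y hy) (h6 y' hy')).trans (min_le_left _ _)
    · apply prN_mem_On f n _ hSw
      rintro l ⟨h1, h2, h3⟩ i hi l' h5 h6
      refine ⟨by omega, ?_, ?_⟩
      · intro y hy
        obtain ⟨x, hx, h | h⟩ := h6 y hy
        · rw [h]; exact hball i hi.le x (h2 x hx)
        · rw [h]; exact hball (i + 1) hi x (h2 x hx)
      · intro y hy y' hy'
        obtain ⟨x, hx, h⟩ := h6 y hy
        obtain ⟨x', hx', h'⟩ := h6 y' hy'
        have e := h3 x hx x' hx'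
        rcases h with rfl | rfl <;> rcases h' with rfl | rfl
        · exact hd i i hi.le hi.le (by simp) x (h2 x hx) x' (h2 x' hx') e
        · exact hd i (i + 1) hi.le hi (by push_cast; simp) x (h2 x hx) x' (h2 x' hx') e
        · exact hd (i + 1) i hi hi.le (by push_cast; simp) x (h2 x hx) x' (h2 x' hx') e
        · exact hd (i + 1) (i + 1) hi hi (by simp) x (h2 x hx) x' (h2 x' hx') e
  · rw [hid]
    apply Submodule.add_mem
    · apply Submodule.add_mem
      · apply ext_mem_On _ _ hbw''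
        rintro l ⟨⟨h1, h2, h3⟩, h4⟩
        apply On_mono _ (hDC l (by omega))
        rintro l' ⟨h5, h6⟩
        refine ⟨by omega, fun y hy => (h3 y (h6 y hy)).1, ?_, ?_⟩
        · intro y hy y' hy'
          exact (hull_small h2 (h6 y hy) (h6 y' hy')).trans (min_le_left _ _)
        · intro y hy
          have := h4 y (h6 y hy)
          linarith
      · apply mp_mem_On (f n) _ hSw
        rintro l ⟨h1, h2, h3⟩
        refine ⟨by simp [h1], ?_, ?_, ?_⟩
        · intro y hy
          rw [List.mem_map] at hy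
          obtain ⟨x, hx, rfl⟩ := hy
          exact hball n le_rfl x (h2 x hx)
        · intro y hy y' hy'
          rw [List.mem_map] at hy hy'
          obtain ⟨x, hx, rfl⟩ := hy
          obtain ⟨x', hx', rfl⟩ := hy'
          exact hd n n le_rfl le_rfl (by simp) x (h2 x hx) x' (h2 x' hx') (h3 x hx x' hx')
        · intro y hy
          rw [List.mem_map] at hy
          obtain ⟨x, hx, rfl⟩ := hy
          exact hfn x (h2 x hx)
    · apply prN_mem_On f n _ hSbw
      rintro l ⟨h1, h2, h3, h4⟩ i hi l' h5 h6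
      have h7 : ∀ y ∈ l', y ∈ l := by
        intro y hy
        obtain ⟨x, hx, h | h⟩ := h6 y hy
        · rw [h, hfar _ _ (hfix x (h4 x hx))]; exact hx
        · rw [h, hfar _ _ (hfix x (h4 x hx))]; exact hx
      refine ⟨by omega, fun y hy => (h2 y (h7 y hy)).1, ?_, ?_⟩
      · intro y hy y' hy'
        have := hd 0 0 (Nat.zero_le _) (Nat.zero_le _) (by simp) y (h2 y (h7 y hy)) y'
          (h2 y' (h7 y' hy')) (h3 y (h7 y hy) y' (h7 y' hy'))
        rwa [hf0, hf0] at this
      · intro y hy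
        have := h4 y (h7 y hy)
        linarith

theorem push_ball {m : ℕ} (p : EuclideanSpace ℝ (Fin m)) (hp : ‖p‖ ≤ 1) {r1 : ℝ}
    (hr1 : 0 < r1) {k : ℕ} (hk : k ≤ m) : PushProp m k p r1 := by
  rcases lt_or_eq_of_le hp with h | h
  · exact push_interior p h hr1 hk
  · exact push_boundary p h hr1 k

end Pool.Agent.BallCM
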