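import Mathlib

/-!
List chains over `ZMod 2`: formal sums of finite lists of points, with the boundary
`∂ (x :: l) = l + x :: ∂ l`.
-/

namespace Pool.Agent.BallCM

/-- chains: formal sums of lists -/
abbrev Ch (X : Type*) := List X →₀ ZMod 2

variable {X Y Z : Type*}

theorem ch_add_self (c : Ch X) : c + c = 0 := by
  ext l
  simp [CharTwo.add_self_eq_zero]

/-- prepend a point -/
noncomputable def cns (x : X) : Ch X →ₗ[ZMod 2] Ch X := Finsupp.lmapDomain _ _ (List.cons x)

@[simp] theorem cns_single (x : X) (l : List X) (a : ZMod 2) :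
    cns x (Finsupp.single l a) = Finsupp.single (x :: l) a := by
  simp [cns]

/-- boundary of a list -/
noncomputable def bdL : List X → Ch X
  | [] => 0
  | x :: l => Finsupp.single l 1 + cns x (bdL l)

@[simp] theorem bdL_nil : bdL ([] : List X) = 0 := rfl
theorem bdL_cons (x : X) (l : List X) :
    bdL (x :: l) = Finsupp.single l 1 + cns x (bdL l) := rfl

/-- linear extension of a map on lists -/
noncomputable def ext (f : List X → Ch Y) : Ch X →ₗ[ZMod 2] Ch Y :=
  Finsupp.linearCombination (ZMod 2) f

@[simp] theorem ext_single (f : List X → Ch Y) (l : List X) (a : ZMod 2) :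
    ext f (Finsupp.single l a) = a • f l := by
  simp [ext]

theorem ext_apply (f : List X → Ch Y) (c : Ch X) :
    ext f c = c.sum fun l a => a • f l := by
  simp [ext, Finsupp.linearCombination_apply]

/-- boundary operator -/
noncomputable def bd : Ch X →ₗ[ZMod 2] Ch X := ext bdL

@[simp] theorem bd_single (l : List X) (a : ZMod 2) : bd (Finsupp.single l a) = a • bdL l := by
  simp [bd]

theorem bd_cns (x : X) (c : Ch X) : bd (cns x c) = c + cns x (bd c) := by
  have : bd ∘ₗ cns x = LinearMap.id + cns x ∘ₗ (bd : Ch X →ₗ[ZMod 2] Ch X) := by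
    apply Finsupp.lhom_ext
    intro l a
    simp [bdL_cons, Finsupp.smul_single]
  exact congrArg (fun f => f c) this

theorem bd_bdL (l : List X) : bd (bdL l) = 0 := by
  induction l with
  | nil => simp
  | cons x l ih =>
    rw [bdL_cons, map_add, bd_cns, ih]
    simp [ch_add_self]

theorem bd_bd (c : Ch X) : bd (bd c) = 0 := by
  have : (bd ∘ₗ bd : Ch X →ₗ[ZMod 2] Ch X) = 0 := by
    apply Finsupp.lhom_ext
    intro l a
    simp [bd_bdL]
  exact congrArg (fun f => f c) this

/-- pushforward -/
noncomputable def mp (f : X → Y) : Ch X →ₗ[ZMod 2] Ch Y := Finsupp.lmapDomain _ _ (List.map f)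

@[simp] theorem mp_single (f : X → Y) (l : List X) (a : ZMod 2) :
    mp f (Finsupp.single l a) = Finsupp.single (l.map f) a := by
  simp [mp]

theorem mp_cns (f : X → Y) (x : X) (c : Ch X) : mp f (cns x c) = cns (f x) (mp f c) := by
  have : mp f ∘ₗ cns x = cns (f x) ∘ₗ mp f := by
    apply Finsupp.lhom_ext
    intro l a
    simp
  exact congrArg (fun f => f c) this

theorem mp_bdL (f : X → Y) (l : List X) : mp f (bdL l) = bdL (l.map f) := by
  induction l with
  | nil => simp
  | cons x l ih =>
    rw [bdL_cons, map_add, mp_cns, ih, mp_single, List.map_cons, bdL_cons]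

theorem bd_mp (f : X → Y) (c : Ch X) : bd (mp f c) = mp f (bd c) := by
  have : bd ∘ₗ mp f = mp f ∘ₗ bd := by
    apply Finsupp.lhom_ext
    intro l a
    simp [mp_bdL]
  exact congrArg (fun f => f c) this

theorem mp_mp (f : X → Y) (g : Y → Z) (c : Ch X) : mp g (mp f c) = mp (g ∘ f) c := by
  have : mp g ∘ₗ mp f = mp (g ∘ f) := by
    apply Finsupp.lhom_ext
    intro l a
    simp
  exact congrArg (fun f => f c) this

/-- prism between two maps -/
noncomputable def prL (f g : X → Y) : List X → Ch Y
  | [] => 0
  | x :: l => Finsupp.single (f x :: g x :: l.map g) 1 + cns (f x) (prL f g l)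

noncomputable def pr (f g : X → Y) : Ch X →ₗ[ZMod 2] Ch Y := ext (prL f g)

@[simp] theorem pr_single (f g : X → Y) (l : List X) (a : ZMod 2) :
    pr f g (Finsupp.single l a) = a • prL f g l := by
  simp [pr]

theorem pr_cns (f g : X → Y) (x : X) (c : Ch X) :
    pr f g (cns x c) = cns (f x) (cns (g x) (mp g c)) + cns (f x) (pr f g c) := by
  have : pr f g ∘ₗ cns x = cns (f x) ∘ₗ cns (g x) ∘ₗ mp g + cns (f x) ∘ₗ pr f g := by
    apply Finsupp.lhom_ext
    intro l a
    simp [prL, Finsupp.smul_single]
  exact congrArg (fun f => f c) this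

theorem bd_prL (f g : X → Y) (l : List X) :
    bd (prL f g l) = Finsupp.single (l.map f) 1 + Finsupp.single (l.map g) 1 +
      pr f g (bdL l) := by
  induction l with
  | nil => simp [prL, ch_add_self]
  | cons x l ih =>
    rw [prL, map_add, bd_cns, ih, bd_single, one_smul, bdL_cons, bdL_cons, bdL_cons,
      map_add (pr f g), pr_cns, pr_single, one_smul]
    simp only [map_add, mp_bdL, cns_single, List.map_cons]
    have h1 := ch_add_self (Finsupp.single (f x :: List.map g l) (1 : ZMod 2))
    have h2 : ∀ a b c d e f' g' : Ch Y, b + b = 0 → a + (b + c) + (d + (e + b + f')) =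
        e + a + (d + (c + f')) := by
      intro a b c d e f' g' hb
      have : a + (b + c) + (d + (e + b + f')) = e + a + (d + (c + f')) + (b + b) := by abel
      rw [this, hb, add_zero]
    exact h2 _ _ _ _ _ _ 0 h1

theorem bd_pr (f g : X → Y) (c : Ch X) :
    bd (pr f g c) = mp f c + mp g c + pr f g (bd c) := by
  have : bd ∘ₗ pr f g = mp f + mp g + pr f g ∘ₗ bd := by
    apply Finsupp.lhom_ext
    intro l a
    simp only [LinearMap.comp_apply, pr_single, LinearMap.add_apply, map_smul, bd_prL, smul_add,
      mp_single, bd_single, Finsupp.smul_single, smul_eq_mul, mul_one]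
  exact congrArg (fun f => f c) this

/-! ### supports -/

/-- chains supported on lists with a property -/
def On (P : List X → Prop) : Submodule (ZMod 2) (Ch X) :=
  Finsupp.supported (ZMod 2) (ZMod 2) {l | P l}

theorem mem_On {P : List X → Prop} {c : Ch X} : c ∈ On P ↔ ∀ l ∈ c.support, P l := by
  unfold On
  rw [Finsupp.mem_supported]
  exact Iff.rfl

theorem single_mem_On {P : List X → Prop} {l : List X} (a : ZMod 2) (h : P l) :
    Finsupp.single l a ∈ On P := by
  unfold On
  exact Finsupp.single_mem_supported _ _ h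

theorem On_mono {P Q : List X → Prop} (h : ∀ l, P l → Q l) {c : Ch X} (hc : c ∈ On P) :
    c ∈ On Q := by
  rw [mem_On] at *
  exact fun l hl => h l (hc l hl)

theorem linmap_mem_On {P : List X → Prop} {Q : List Y → Prop} (F : Ch X →ₗ[ZMod 2] Ch Y)
    (h : ∀ l, P l → F (Finsupp.single l 1) ∈ On Q) {c : Ch X} (hc : c ∈ On P) : F c ∈ On Q := by
  rw [mem_On] at hc
  rw [← Finsupp.sum_single c, map_finsuppSum]
  apply Submodule.sum_mem
  intro l hl
  have h1 := h l (hc l hl)
  have : Finsupp.single l (c l) = (c l) • Finsupp.single l (1 : ZMod 2) := by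
    simp [Finsupp.smul_single]
  show F (Finsupp.single l (c l)) ∈ On Q
  rw [this, map_smul]
  exact Submodule.smul_mem _ _ h1

theorem linmap_eq_On {M : Type*} [AddCommGroup M] [Module (ZMod 2) M] {P : List X → Prop}
    (F G : Ch X →ₗ[ZMod 2] M)
    (h : ∀ l, P l → F (Finsupp.single l 1) = G (Finsupp.single l 1)) {c : Ch X} (hc : c ∈ On P) :
    F c = G c := by
  rw [mem_On] at hc
  rw [← Finsupp.sum_single c, map_finsuppSum, map_finsuppSum]
  apply Finsupp.sum_congr
  intro l hl
  have h1 := h l (hc l hl)
  have : Finsupp.single l (c l) = (c l) • Finsupp.single l (1 : ZMod 2) := by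
    simp [Finsupp.smul_single]
  show F (Finsupp.single l (c l)) = G (Finsupp.single l (c l))
  rw [this, map_smul, map_smul, h1]

theorem ext_mem_On {P : List X → Prop} {Q : List Y → Prop} (f : List X → Ch Y)
    (h : ∀ l, P l → f l ∈ On Q) {c : Ch X} (hc : c ∈ On P) : ext f c ∈ On Q := by
  apply linmap_mem_On (ext f) _ hc
  intro l hl
  simpa using h l hl

theorem mp_mem_On {P : List X → Prop} {Q : List Y → Prop} (f : X → Y)
    (h : ∀ l, P l → Q (l.map f)) {c : Ch X} (hc : c ∈ On P) : mp f c ∈ On Q := by
  apply linmap_mem_On (mp f) _ hc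
  intro l hl
  simpa using single_mem_On 1 (h l hl)

theorem cns_mem_On {P : List X → Prop} {Q : List X → Prop} (x : X)
    (h : ∀ l, P l → Q (x :: l)) {c : Ch X} (hc : c ∈ On P) : cns x c ∈ On Q := by
  apply linmap_mem_On (cns x) _ hc
  intro l hl
  simpa using single_mem_On 1 (h l hl)

/-- support of the boundary of a list: sublists of length one less -/
theorem bdL_mem_On (l : List X) :
    bdL l ∈ On (fun l' => l'.Sublist l ∧ l'.length + 1 = l.length) := by
  induction l with
  | nil => simp
  | cons x l ih =>
    rw [bdL_cons]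
    apply Submodule.add_mem
    · apply single_mem_On
      exact ⟨List.sublist_cons_self x l, by simp⟩
    · apply cns_mem_On x _ ih
      rintro l' ⟨h1, h2⟩
      exact ⟨h1.cons_cons x, by simp [← h2]⟩

theorem bd_mem_On {P Q : List X → Prop}
    (h : ∀ l, P l → ∀ l', l'.Sublist l → l'.length + 1 = l.length → Q l') {c : Ch X}
    (hc : c ∈ On P) : bd c ∈ On Q := by
  apply linmap_mem_On bd _ hc
  intro l hl
  rw [bd_single, one_smul]
  exact On_mono (fun l' h' => h l hl l' h'.1 h'.2) (bdL_mem_On l)

theorem prL_mem_On (f g : X → Y) (l : List X) :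
    prL f g l ∈ On (fun l' => l'.length = l.length + 1 ∧ ∀ y ∈ l', ∃ x ∈ l, y = f x ∨ y = g x) := by
  induction l with
  | nil => simp [prL]
  | cons x l ih =>
    rw [prL]
    apply Submodule.add_mem
    · apply single_mem_On
      refine ⟨by simp, ?_⟩
      intro y hy
      simp only [List.mem_cons, List.mem_map] at hy
      rcases hy with h | h | ⟨z, hz, rfl⟩
      · exact ⟨x, by simp, Or.inl h⟩
      · exact ⟨x, by simp, Or.inr h⟩
      · exact ⟨z, by simp [hz], Or.inr rfl⟩
    · apply cns_mem_On _ _ ih
      rintro l' ⟨h1, h2⟩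
      refine ⟨by simp [h1], ?_⟩
      intro y hy
      rw [List.mem_cons] at hy
      rcases hy with h | h
      · exact ⟨x, by simp, Or.inl h⟩
      · obtain ⟨z, hz, h'⟩ := h2 y h
        exact ⟨z, by simp [hz], h'⟩

theorem pr_mem_On {P : List X → Prop} {Q : List Y → Prop} (f g : X → Y)
    (h : ∀ l, P l → ∀ l', l'.length = l.length + 1 → (∀ y ∈ l', ∃ x ∈ l, y = f x ∨ y = g x) → Q l')
    {c : Ch X} (hc : c ∈ On P) : pr f g c ∈ On Q := by
  apply linmap_mem_On _ _ hc
  intro l hl
  rw [pr_single, one_smul]
  exact On_mono (fun l' h' => h l hl l' h'.1 h'.2) (prL_mem_On f g l)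

theorem cns_bd_fill (x : X) {c : Ch X} (hc : bd c = 0) : bd (cns x c) = c := by
  rw [bd_cns, hc]; simp

/-- two maps agreeing on the entries give the same pushforward -/
theorem mp_congr_On {P : List X → Prop} {f g : X → Y}
    (h : ∀ l, P l → ∀ x ∈ l, f x = g x) {c : Ch X} (hc : c ∈ On P) : mp f c = mp g c := by
  apply linmap_eq_On _ _ _ hc
  intro l hl
  rw [mp_single, mp_single, List.map_congr_left (h l hl)]

theorem add_eq_iff {a b c : Ch X} : a + b = c ↔ a = c + b := by
  constructor
  · intro h; rw [← h, add_assoc, ch_add_self, add_zero]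
  · intro h; rw [h, add_assoc, ch_add_self, add_zero]

/-! ### acyclic carriers -/

/-- Acyclic carrier homotopy: two chain maps (defined on lists of length `≤ N`) with values in
lists over `C l` are homotopic through lists over `C l`. -/
theorem carrier_homotopy (N : ℕ) (f g : List X → Ch Y) (C : List X → Set Y)
    (hC : ∀ l, l ≠ [] → (C l).Nonempty)
    (hmono : ∀ l l' : List X, l'.Sublist l → C l' ⊆ C l)
    (hf0 : f [] = g [])
    (hf : ∀ l, l.length ≤ N → bd (f l) = ext f (bdL l))
    (hg : ∀ l, l.length ≤ N → bd (g l) = ext g (bdL l))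
    (hfC : ∀ l, l.length ≤ N → f l ∈ On (fun l' => l'.length = l.length ∧ ∀ y ∈ l', y ∈ C l))
    (hgC : ∀ l, l.length ≤ N → g l ∈ On (fun l' => l'.length = l.length ∧ ∀ y ∈ l', y ∈ C l)) :
    ∃ D : List X → Ch Y, D [] = 0 ∧
      (∀ l, l.length ≤ N → bd (D l) = f l + g l + ext D (bdL l)) ∧
      (∀ l, l.length ≤ N →
        D l ∈ On (fun l' => l'.length = l.length + 1 ∧ ∀ y ∈ l', y ∈ C l)) := by
  classical
  induction N with
  | zero =>
    refine ⟨fun _ => 0, rfl, ?_, ?_⟩
    · intro l hl
      have : l = [] := by simpa using hl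
      subst this
      simp [hf0, ch_add_self]
    · intro l hl
      exact Submodule.zero_mem _
  | succ N ih =>
    obtain ⟨D, hD0, hD, hDC⟩ := ih (fun l hl => hf l (by omega)) (fun l hl => hg l (by omega))
      (fun l hl => hfC l (by omega)) (fun l hl => hgC l (by omega))
    let D' : List X → Ch Y := fun l =>
      if h : l.length = N + 1 then
        cns (hC l (by rintro rfl; simp at h)).some (f l + g l + ext D (bdL l))
      else D l
    have hD'lt : ∀ l : List X, l.length ≤ N → D' l = D l := by
      intro l hl
      have : ¬ l.length = N + 1 := by omega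
      simp only [D', this, dif_neg, not_false_iff]
    have hext : ∀ l : List X, l.length ≤ N + 1 → ext D' (bdL l) = ext D (bdL l) := by
      intro l hl
      rw [ext_apply, ext_apply]
      apply Finsupp.sum_congr
      intro l' hl'
      have := (mem_On.1 (bdL_mem_On l) l' hl').2
      rw [hD'lt l' (by omega)]
    refine ⟨D', ?_, ?_, ?_⟩
    · rw [hD'lt [] (by simp), hD0]
    · intro l hl
      rw [hext l hl]
      by_cases h : l.length = N + 1
      · have h1 : D' l = cns (hC l (by rintro rfl; simp at h)).some
            (f l + g l + ext D (bdL l)) := by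
          simp only [D', h, dif_pos]
        rw [h1]
        apply cns_bd_fill
        rw [map_add, map_add, hf l hl, hg l hl]
        have h2 : bd (ext D (bdL l)) = ext f (bdL l) + ext g (bdL l) := by
          -- apply homotopy identity on bdL l
          have h3 : ∀ c : Ch X, c ∈ On (fun l' => l'.length ≤ N) →
              bd (ext D c) = ext f c + ext g c + ext D (bd c) := by
            intro c hc
            have := linmap_eq_On (bd ∘ₗ ext D) (ext f + ext g + ext D ∘ₗ bd) (P := fun l' =>
              l'.length ≤ N) (by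
                intro l' hl'
                simp only [LinearMap.comp_apply, LinearMap.add_apply, ext_single, bd_single,
                  one_smul]
                exact hD l' hl') hc
            exact this
          have h4 := h3 (bdL l) (On_mono (fun l' h' => by
            have := h'.2; omega) (bdL_mem_On l))
          rw [h4, bd_bdL, map_zero, add_zero]
        rw [h2]
        exact ch_add_self _
      · rw [hD'lt l (by omega), hD l (by omega)]
    · intro l hl
      by_cases h : l.length = N + 1
      · have h1 : D' l = cns (hC l (by rintro rfl; simp at h)).some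
            (f l + g l + ext D (bdL l)) := by
          simp only [D', h, dif_pos]
        rw [h1]
        apply cns_mem_On (P := fun l' => l'.length = l.length ∧ ∀ y ∈ l', y ∈ C l)
        · rintro l' ⟨h5, h6⟩
          refine ⟨by simp [h5], ?_⟩
          intro y hy
          rw [List.mem_cons] at hy
          rcases hy with rfl | hy
          · exact (hC l (by rintro rfl; simp at h)).some_mem
          · exact h6 y hy
        · apply Submodule.add_mem
          · exact Submodule.add_mem _ (hfC l hl) (hgC l hl)
          · apply ext_mem_On (P := fun l' => l'.Sublist l ∧ l'.length + 1 = l.length) _ _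
              (bdL_mem_On l)
            rintro l' ⟨h5, h6⟩
            apply On_mono _ (hDC l' (by omega))
            rintro l'' ⟨h7, h8⟩
            exact ⟨by omega, fun y hy => hmono l l' h5 (h8 y hy)⟩
      · rw [hD'lt l (by omega)]
        exact hDC l (by omega)

/-- the homotopy identity, extended to chains -/
theorem homotopy_ext {N : ℕ} {f g D : List X → Ch Y}
    (hD : ∀ l, l.length ≤ N → bd (D l) = f l + g l + ext D (bdL l)) {c : Ch X}
    (hc : c ∈ On (fun l => l.length ≤ N)) :
    bd (ext D c) = ext f c + ext g c + ext D (bd c) := by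
  have := linmap_eq_On (bd ∘ₗ ext D) (ext f + ext g + ext D ∘ₗ bd) (P := fun l' =>
    l'.length ≤ N) (by
      intro l' hl'
      simp only [LinearMap.comp_apply, LinearMap.add_apply, ext_single, bd_single,
        one_smul]
      exact hD l' hl') hc
  exact this

theorem chainmap_ext {N : ℕ} {f : List X → Ch Y}
    (hf : ∀ l, l.length ≤ N → bd (f l) = ext f (bdL l)) {c : Ch X}
    (hc : c ∈ On (fun l => l.length ≤ N)) :
    bd (ext f c) = ext f (bd c) := by
  have := linmap_eq_On (bd ∘ₗ ext f) (ext f ∘ₗ bd) (P := fun l' =>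
    l'.length ≤ N) (by
      intro l' hl'
      simp only [LinearMap.comp_apply, ext_single, bd_single, one_smul]
      exact hf l' hl') hc
  exact this

end Pool.Agent.BallCM
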