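import Pool.Agent.Lib_helper83.BallCM.Chains

/-!
Small chains in convex sets: filling and subdivision.
-/

namespace Pool.Agent.BallCM

variable {X Y : Type*}

/-- all points of the list are at mutual distance `≤ δ` -/
def Small [PseudoMetricSpace X] (δ : ℝ) (l : List X) : Prop := ∀ x ∈ l, ∀ y ∈ l, dist x y ≤ δ

theorem Small.mono [PseudoMetricSpace X] {δ δ' : ℝ} (h : δ ≤ δ') {l : List X} (hl : Small δ l) :
    Small δ' l := fun x hx y hy => (hl x hx y hy).trans h

/-- a homotopy in several steps -/
noncomputable def prN (f : ℕ → X → Y) (n : ℕ) : Ch X →ₗ[ZMod 2] Ch Y :=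
  ∑ i ∈ Finset.range n, pr (f i) (f (i + 1))

theorem bd_prN (f : ℕ → X → Y) (n : ℕ) (c : Ch X) :
    bd (prN f n c) = mp (f 0) c + mp (f n) c + prN f n (bd c) := by
  induction n with
  | zero => simp [prN, ch_add_self]
  | succ n ih =>
    have h1 : ∀ c : Ch X, prN f (n + 1) c = prN f n c + pr (f n) (f (n + 1)) c := by
      intro c
      simp [prN, Finset.sum_range_succ]
    rw [h1, h1, map_add, ih, bd_pr]
    have h2 := ch_add_self (mp (f n) c)
    have h3 : ∀ a b c d e : Ch Y, b + b = 0 → a + b + d + (b + c + e) = a + c + (d + e) := by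
      intro a b c d e hb
      have : a + b + d + (b + c + e) = a + c + (d + e) + (b + b) := by abel
      rw [this, hb, add_zero]
    exact h3 _ _ _ _ _ h2

theorem prN_mem_On {P : List X → Prop} {Q : List Y → Prop} (f : ℕ → X → Y) (n : ℕ)
    (h : ∀ l, P l → ∀ i < n, ∀ l', l'.length = l.length + 1 →
      (∀ y ∈ l', ∃ x ∈ l, y = f i x ∨ y = f (i + 1) x) → Q l')
    {c : Ch X} (hc : c ∈ On P) : prN f n c ∈ On Q := by
  unfold prN
  rw [LinearMap.sum_apply]
  apply Submodule.sum_mem
  intro i hi
  rw [Finset.mem_range] at hi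
  exact pr_mem_On _ _ (fun l hl l' h1 h2 => h l hl i hi l' h1 h2) hc

theorem exists_bound {E : Type*} (F : E → ℝ) (c : Ch E) :
    ∃ R : ℝ, 0 < R ∧ ∀ l ∈ c.support, ∀ y ∈ l, F y ≤ R := by
  classical
  obtain ⟨M, hM⟩ := ((c.support.biUnion (fun l => l.toFinset)).image F).exists_le
  refine ⟨max M 1, by positivity, ?_⟩
  intro l hl y hy
  refine le_trans (hM (F y) ?_) (le_max_left _ _)
  rw [Finset.mem_image]
  refine ⟨y, ?_, rfl⟩
  rw [Finset.mem_biUnion]
  exact ⟨l, hl, by simpa using hy⟩

variable {E : Type*} [NormedAddCommGroup E] [NormedSpace ℝ E]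

theorem fill_convex {Q : Set E} (hQ : Convex ℝ Q) (hne : Q.Nonempty) {k : ℕ} {δ η : ℝ}
    (hδ : 0 ≤ δ) (hη : 0 < η) {c : Ch E}
    (hc : c ∈ On (fun l => l.length = k ∧ (∀ y ∈ l, y ∈ Q) ∧ Small δ l)) (hbd : bd c = 0) :
    ∃ u ∈ On (fun l : List E => l.length = k + 1 ∧ (∀ y ∈ l, y ∈ Q) ∧ Small (δ + η) l),
      bd u = c := by
  obtain ⟨b, hb⟩ := hne
  obtain ⟨R, hR0, hR⟩ := exists_bound (fun y => ‖b - y‖) c
  obtain ⟨n, hn⟩ := exists_nat_gt (R / η)
  have hn0 : (0 : ℝ) < n := lt_trans (by positivity) hn
  have hRn : R / n ≤ η := by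
    rw [div_le_iff₀ hn0]
    rw [div_lt_iff₀ hη] at hn
    linarith
  let f : ℕ → E → E := fun i y => y + ((i : ℝ) / n) • (b - y)
  have hc' : c ∈ On (fun l : List E => l.length = k ∧ (∀ y ∈ l, y ∈ Q) ∧ Small δ l ∧
      ∀ y ∈ l, ‖b - y‖ ≤ R) := by
    rw [mem_On] at hc ⊢
    intro l hl
    exact ⟨(hc l hl).1, (hc l hl).2.1, (hc l hl).2.2, fun y hy => hR l hl y hy⟩
  have hf0 : ∀ c : Ch E, mp (f 0) c = c := by
    intro c
    have : f 0 = id := by
      funext y
      simp [f]
    rw [this]
    simp [mp]
  have hfn : ∀ y, f n y = b := by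
    intro y
    simp only [f]
    rw [div_self hn0.ne', one_smul]
    abel
  have ht : ∀ i : ℕ, i ≤ n → ((i : ℝ) / n) ∈ Set.Icc (0 : ℝ) 1 := by
    intro i hi
    refine ⟨by positivity, ?_⟩
    rw [div_le_one hn0]
    exact_mod_cast hi
  have hfQ : ∀ i : ℕ, i ≤ n → ∀ y ∈ Q, f i y ∈ Q := by
    intro i hi y hy
    exact hQ.add_smul_sub_mem hy hb (ht i hi)
  have hd1 : ∀ i : ℕ, i ≤ n → ∀ x y, dist (f i x) (f i y) ≤ dist x y := by
    intro i hi x y
    have : f i x - f i y = (1 - (i : ℝ) / n) • (x - y) := by
      simp only [f]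
      module
    rw [dist_eq_norm, this, norm_smul, dist_eq_norm, Real.norm_eq_abs,
      abs_of_nonneg (by linarith [(ht i hi).2])]
    have := (ht i hi).1
    nlinarith [norm_nonneg (x - y)]
  have hd2 : ∀ i : ℕ, ∀ y, ‖b - y‖ ≤ R → dist (f i y) (f (i + 1) y) ≤ η := by
    intro i y hy
    have : f i y - f (i + 1) y = (-(1 / (n : ℝ))) • (b - y) := by
      simp only [f]
      push_cast
      module
    rw [dist_eq_norm, this, norm_smul, norm_neg, Real.norm_eq_abs, abs_of_nonneg (by positivity)]
    calc 1 / (n : ℝ) * ‖b - y‖ ≤ 1 / n * R := by gcongr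
      _ = R / n := by ring
      _ ≤ η := hRn
  refine ⟨prN f n c + cns b (mp (f n) c), ?_, ?_⟩
  · apply Submodule.add_mem
    · apply prN_mem_On f n _ hc'
      rintro l ⟨h1, h2, h3, h4⟩ i hi l' h5 h6
      refine ⟨by omega, ?_, ?_⟩
      · intro y hy
        obtain ⟨x, hx, h | h⟩ := h6 y hy
        · rw [h]; exact hfQ i hi.le x (h2 x hx)
        · rw [h]; exact hfQ (i + 1) hi x (h2 x hx)
      · intro y hy y' hy'
        obtain ⟨x, hx, h⟩ := h6 y hy
        obtain ⟨x', hx', h'⟩ := h6 y' hy'
        have e1 := hd1 i hi.le x x'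
        have e2 := hd1 (i + 1) hi x x'
        have e3 := hd2 i x (h4 x hx)
        have e4 := hd2 i x' (h4 x' hx')
        have e5 := h3 x hx x' hx'
        rcases h with rfl | rfl <;> rcases h' with rfl | rfl
        · linarith
        · linarith [dist_triangle (f i x) (f i x') (f (i + 1) x')]
        · rw [dist_comm] at e3
          linarith [dist_triangle (f (i + 1) x) (f i x) (f i x')]
        · linarith
    · apply cns_mem_On (P := fun l => l.length = k ∧ ∀ y ∈ l, y = b)
      · rintro l ⟨h1, h2⟩
        have h3 : ∀ y ∈ b :: l, y = b := by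
          intro y hy
          rw [List.mem_cons] at hy
          rcases hy with rfl | hy
          · rfl
          · exact h2 y hy
        refine ⟨by simp [h1], fun y hy => by rw [h3 y hy]; exact hb, ?_⟩
        intro y hy y' hy'
        rw [h3 y hy, h3 y' hy', dist_self]
        positivity
      · apply mp_mem_On (f n) _ hc'
        rintro l ⟨h1, -, -, -⟩
        refine ⟨by simp [h1], ?_⟩
        intro y hy
        rw [List.mem_map] at hy
        obtain ⟨x, -, rfl⟩ := hy
        exact hfn x
  · rw [map_add, bd_prN, hbd, map_zero, add_zero, hf0, cns_bd_fill]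
    · rw [add_assoc, ch_add_self, add_zero]
    · rw [bd_mp, hbd, map_zero]

/-- the convex hull of the entries of a list -/
def hull (l : List E) : Set E := convexHull ℝ {x | x ∈ l}

theorem hull_convex (l : List E) : Convex ℝ (hull l) := convex_convexHull ℝ _

theorem hull_nonempty {l : List E} (h : l ≠ []) : (hull l).Nonempty := by
  obtain ⟨x, hx⟩ := List.exists_mem_of_ne_nil l h
  exact ⟨x, subset_convexHull ℝ _ hx⟩

theorem hull_mono {l l' : List E} (h : l'.Sublist l) : hull l' ⊆ hull l :=
  convexHull_mono (fun _ hx => h.subset hx)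

theorem mem_hull {l : List E} {x : E} (h : x ∈ l) : x ∈ hull l := subset_convexHull ℝ _ h

theorem hull_small {l : List E} {δ : ℝ} (h : Small δ l) {x y : E} (hx : x ∈ hull l)
    (hy : y ∈ hull l) : dist x y ≤ δ := by
  obtain ⟨x', hx', y', hy', h'⟩ := convexHull_exists_dist_ge2 hx hy
  exact h'.trans (h x' hx' y' hy')

/-- fine subdivision, together with a homotopy to the identity -/
theorem exists_subdiv {ε : ℝ} (hε : 0 < ε) (N : ℕ) :
    ∃ S D : List E → Ch E, S [] = Finsupp.single [] 1 ∧ D [] = 0 ∧
      (∀ l, l.length ≤ N → bd (S l) = ext S (bdL l)) ∧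
      (∀ l, l.length ≤ N → bd (D l) = S l + Finsupp.single l 1 + ext D (bdL l)) ∧
      (∀ l, l.length ≤ N → S l ∈ On (fun l' => l'.length = l.length ∧ (∀ y ∈ l', y ∈ hull l) ∧
        Small (ε * (1 - (1 / 2) ^ l.length)) l')) ∧
      (∀ l, l.length ≤ N → D l ∈ On (fun l' => l'.length = l.length + 1 ∧
        (∀ y ∈ l', y ∈ hull l))) := by
  classical
  induction N with
  | zero =>
    refine ⟨fun _ => Finsupp.single [] 1, fun _ => 0, rfl, rfl, ?_, ?_, ?_, ?_⟩
    · intro l hl
      have : l = [] := by simpa using hl
      subst this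
      simp
    · intro l hl
      have : l = [] := by simpa using hl
      subst this
      simp [ch_add_self]
    · intro l hl
      have : l = [] := by simpa using hl
      subst this
      apply single_mem_On
      refine ⟨rfl, by simp, ?_⟩
      intro x hx
      simp at hx
    · intro l hl
      exact Submodule.zero_mem _
  | succ N ih =>
    obtain ⟨S, D, hS0, hD0, hS, hD, hSC, hDC⟩ := ih
    -- filling data
    have key : ∀ l : List E, l.length = N + 1 → ∃ u ∈ On (fun l' : List E => l'.length = N + 1 ∧
        (∀ y ∈ l', y ∈ hull l) ∧ Small (ε * (1 - (1 / 2) ^ (N + 1))) l'),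
        bd u = ext S (bdL l) := by
      intro l hl
      have hne : l ≠ [] := by rintro rfl; simp at hl
      have h1 : ext S (bdL l) ∈ On (fun l' => l'.length = N ∧ (∀ y ∈ l', y ∈ hull l) ∧
          Small (ε * (1 - (1 / 2) ^ N)) l') := by
        apply ext_mem_On _ _ (bdL_mem_On l)
        rintro l' ⟨h5, h6⟩
        have h7 : l'.length = N := by omega
        apply On_mono _ (hSC l' (by omega))
        rintro l'' ⟨h8, h9, h10⟩
        refine ⟨by omega, fun y hy => hull_mono h5 (h9 y hy), ?_⟩
        rw [h7] at h10
        exact h10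
      have h2 : bd (ext S (bdL l)) = 0 := by
        rw [chainmap_ext (N := N) hS, bd_bdL, map_zero]
        exact On_mono (fun l' h' => by have := h'.2; omega) (bdL_mem_On l)
      have hpow : (0 : ℝ) ≤ 1 - (1 / 2) ^ N := by
        have : ((1 : ℝ) / 2) ^ N ≤ 1 := pow_le_one₀ (by norm_num) (by norm_num)
        linarith
      obtain ⟨u, hu, hu'⟩ := fill_convex (hull_convex l) (hull_nonempty hne)
        (mul_nonneg hε.le hpow) (η := ε * (1 / 2) ^ (N + 1)) (by positivity) h1 h2
      refine ⟨u, ?_, hu'⟩
      apply On_mono _ hu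
      rintro l' ⟨h3, h4, h5⟩
      refine ⟨h3, h4, h5.mono ?_⟩
      apply le_of_eq
      ring
    choose! U hU hUbd using key
    let S' : List E → Ch E := fun l => if l.length = N + 1 then U l else S l
    have hS'lt : ∀ l : List E, l.length ≤ N → S' l = S l := by
      intro l hl
      have : ¬ l.length = N + 1 := by omega
      simp only [S', this, if_false]
    let D' : List E → Ch E := fun l =>
      if h : l.length = N + 1 then
        cns (l.head (by rintro rfl; simp at h)) (U l + Finsupp.single l 1 + ext D (bdL l))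
      else D l
    have hD'lt : ∀ l : List E, l.length ≤ N → D' l = D l := by
      intro l hl
      have : ¬ l.length = N + 1 := by omega
      simp only [D', this, dif_neg, not_false_iff]
    have hextS : ∀ l : List E, l.length ≤ N + 1 → ext S' (bdL l) = ext S (bdL l) := by
      intro l hl
      rw [ext_apply, ext_apply]
      apply Finsupp.sum_congr
      intro l' hl'
      have := (mem_On.1 (bdL_mem_On l) l' hl').2
      rw [hS'lt l' (by omega)]
    have hextD : ∀ l : List E, l.length ≤ N + 1 → ext D' (bdL l) = ext D (bdL l) := by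
      intro l hl
      rw [ext_apply, ext_apply]
      apply Finsupp.sum_congr
      intro l' hl'
      have := (mem_On.1 (bdL_mem_On l) l' hl').2
      rw [hD'lt l' (by omega)]
    refine ⟨S', D', ?_, ?_, ?_, ?_, ?_, ?_⟩
    · rw [hS'lt [] (by simp), hS0]
    · rw [hD'lt [] (by simp), hD0]
    · intro l hl
      rw [hextS l hl]
      by_cases h : l.length = N + 1
      · have : S' l = U l := by simp only [S', h, if_true]
        rw [this, hUbd l h]
      · rw [hS'lt l (by omega), hS l (by omega)]
    · intro l hl
      rw [hextD l hl]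
      by_cases h : l.length = N + 1
      · have h1 : D' l = cns (l.head (by rintro rfl; simp at h))
            (U l + Finsupp.single l 1 + ext D (bdL l)) := by
          simp only [D', h, dif_pos]
        have h1' : S' l = U l := by simp only [S', h, if_true]
        rw [h1, h1']
        apply cns_bd_fill
        rw [map_add, map_add, hUbd l h, bd_single, one_smul]
        have h4 := homotopy_ext (N := N) hD (c := bdL l)
          (On_mono (fun l' h' => by have := h'.2; omega) (bdL_mem_On l))
        rw [h4, bd_bdL, map_zero, add_zero]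
        have h5 : ext (fun l : List E => Finsupp.single l (1 : ZMod 2)) (bdL l) = bdL l := by
          rw [ext_apply]
          simp only [Finsupp.smul_single, smul_eq_mul, mul_one]
          exact Finsupp.sum_single _
        rw [h5]
        exact ch_add_self _
      · rw [hD'lt l (by omega), hS'lt l (by omega), hD l (by omega)]
    · intro l hl
      by_cases h : l.length = N + 1
      · have h1' : S' l = U l := by simp only [S', h, if_true]
        rw [h1']
        apply On_mono _ (hU l h)
        rintro l' ⟨h3, h4, h5⟩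
        rw [h]
        exact ⟨h3, h4, h5⟩
      · rw [hS'lt l (by omega)]
        exact hSC l (by omega)
    · intro l hl
      by_cases h : l.length = N + 1
      · have h1 : D' l = cns (l.head (by rintro rfl; simp at h))
            (U l + Finsupp.single l 1 + ext D (bdL l)) := by
          simp only [D', h, dif_pos]
        rw [h1]
        apply cns_mem_On (P := fun l' => l'.length = l.length ∧ ∀ y ∈ l', y ∈ hull l)
        · rintro l' ⟨h5, h6⟩
          refine ⟨by simp [h5], ?_⟩
          intro y hy
          rw [List.mem_cons] at hy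
          rcases hy with rfl | hy
          · exact mem_hull (List.head_mem _)
          · exact h6 y hy
        · apply Submodule.add_mem
          · apply Submodule.add_mem
            · apply On_mono _ (hU l h)
              rintro l' ⟨h3, h4, h5⟩
              exact ⟨by omega, h4⟩
            · apply single_mem_On
              exact ⟨rfl, fun y hy => mem_hull hy⟩
          · apply ext_mem_On (P := fun l' => l'.Sublist l ∧ l'.length + 1 = l.length) _ _
              (bdL_mem_On l)
            rintro l' ⟨h5, h6⟩
            apply On_mono _ (hDC l' (by omega))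
            rintro l'' ⟨h7, h8⟩
            exact ⟨by omega, fun y hy => hull_mono h5 (h8 y hy)⟩
      · rw [hD'lt l (by omega)]
        exact hDC l (by omega)

end Pool.Agent.BallCM
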