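import Pool.Agent.Lib_helper83.BallCM.Main

/-!
From list chains to chains of faces (finsets).
-/

namespace Pool.Agent.BallCM

variable {n : ℕ}

/-- chains of faces -/
abbrev SC (n : ℕ) := Finset (Fin n) →₀ ZMod 2

theorem sc_add_self (c : SC n) : c + c = 0 := by
  ext l
  simp [CharTwo.add_self_eq_zero]

/-- insert a vertex -/
noncomputable def Ex (x : Fin n) : SC n →ₗ[ZMod 2] SC n :=
  Finsupp.linearCombination (ZMod 2) (fun F => if x ∈ F then 0 else Finsupp.single (insert x F) 1)

theorem Ex_single (x : Fin n) (F : Finset (Fin n)) (a : ZMod 2) :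
    Ex x (Finsupp.single F a) = if x ∈ F then 0 else Finsupp.single (insert x F) a := by
  unfold Ex
  rw [Finsupp.linearCombination_single]
  split_ifs
  · simp
  · simp

/-- boundary of faces -/
noncomputable def dS : SC n →ₗ[ZMod 2] SC n :=
  Finsupp.linearCombination (ZMod 2) (fun F => ∑ a ∈ F, Finsupp.single (F.erase a) 1)

theorem dS_single (F : Finset (Fin n)) (a : ZMod 2) :
    dS (Finsupp.single F a) = ∑ v ∈ F, Finsupp.single (F.erase v) a := by
  unfold dS
  rw [Finsupp.linearCombination_single, Finset.smul_sum]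
  simp

theorem dS_Ex (x : Fin n) (c : SC n) : dS (Ex x c) = c + Ex x (dS c) := by
  have : dS ∘ₗ Ex x = LinearMap.id + Ex x ∘ₗ (dS : SC n →ₗ[ZMod 2] SC n) := by
    apply Finsupp.lhom_ext
    intro F a
    simp only [LinearMap.comp_apply, LinearMap.add_apply, LinearMap.id_apply, Ex_single, dS_single,
      map_sum]
    by_cases h : x ∈ F
    · rw [if_pos h, map_zero]
      rw [← Finset.add_sum_erase _ _ h]
      rw [if_neg (Finset.notMem_erase x F), Finset.insert_erase h]
      rw [Finset.sum_eq_zero, add_zero, sc_add_self]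
      intro v hv
      rw [Finset.mem_erase] at hv
      rw [if_pos (Finset.mem_erase.2 ⟨hv.1.symm, h⟩)]
    · rw [if_neg h, dS_single, Finset.sum_insert h, Finset.erase_insert h]
      congr 1
      apply Finset.sum_congr rfl
      intro v hv
      have hne : x ≠ v := by rintro rfl; exact h hv
      rw [if_neg (fun h' => h (Finset.mem_of_mem_erase h'))]
      rw [Finset.erase_insert_of_ne hne]
  exact congrArg (fun f => f c) this

/-- list to face -/
noncomputable def fcL : List (Fin n) → SC n
  | [] => Finsupp.single ∅ 1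
  | x :: l => Ex x (fcL l)

noncomputable def fc : Ch (Fin n) →ₗ[ZMod 2] SC n := Finsupp.linearCombination (ZMod 2) fcL

theorem fc_single (l : List (Fin n)) (a : ZMod 2) : fc (Finsupp.single l a) = a • fcL l := by
  simp [fc]

theorem fc_cns (x : Fin n) (c : Ch (Fin n)) : fc (cns x c) = Ex x (fc c) := by
  have : fc ∘ₗ cns x = Ex x ∘ₗ fc := by
    apply Finsupp.lhom_ext
    intro l a
    simp [fc_single, fcL]
  exact congrArg (fun f => f c) this

theorem dS_fcL (l : List (Fin n)) : dS (fcL l) = fc (bdL l) := by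
  induction l with
  | nil => simp [fcL, dS_single]
  | cons x l ih =>
    rw [fcL, dS_Ex, ih, bdL_cons, map_add, fc_cns, fc_single, one_smul]

theorem dS_fc (c : Ch (Fin n)) : dS (fc c) = fc (bd c) := by
  have : dS ∘ₗ fc = fc ∘ₗ (bd : Ch (Fin n) →ₗ[ZMod 2] Ch (Fin n)) := by
    apply Finsupp.lhom_ext
    intro l a
    simp [fc_single, dS_fcL]
  exact congrArg (fun f => f c) this

theorem fcL_eq (l : List (Fin n)) :
    fcL l = if l.Nodup then Finsupp.single l.toFinset 1 else 0 := by
  induction l with
  | nil => simp [fcL]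
  | cons x l ih =>
    rw [fcL, ih]
    by_cases h : l.Nodup
    · rw [if_pos h, Ex_single]
      by_cases hx : x ∈ l
      · rw [if_pos (by simpa using hx), if_neg (by simp [hx])]
      · rw [if_neg (by simpa using hx), if_pos (by simp [hx, h]), List.toFinset_cons]
    · rw [if_neg h, map_zero, if_neg (fun h' => h (List.nodup_cons.1 h').2)]

/-- face to sorted list -/
noncomputable def st : SC n →ₗ[ZMod 2] Ch (Fin n) :=
  Finsupp.linearCombination (ZMod 2) (fun F => Finsupp.single (F.sort (· ≤ ·)) 1)

theorem st_single (F : Finset (Fin n)) (a : ZMod 2) :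
    st (Finsupp.single F a) = Finsupp.single (F.sort (· ≤ ·)) a := by
  simp [st]

theorem fc_st (c : SC n) : fc (st c) = c := by
  have : fc ∘ₗ st = (LinearMap.id : SC n →ₗ[ZMod 2] SC n) := by
    apply Finsupp.lhom_ext
    intro F a
    simp [st_single, fc_single, fcL_eq]
  exact congrArg (fun f => f c) this

theorem bdL_nodup (l : List (Fin n)) (h : l.Nodup) :
    bdL l = ∑ a ∈ l.toFinset, Finsupp.single (l.erase a) 1 := by
  induction l with
  | nil => simp
  | cons x l ih =>
    rw [List.nodup_cons] at h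
    rw [bdL_cons, ih h.2, List.toFinset_cons, Finset.sum_insert (by simpa using h.1),
      List.erase_cons_head, map_sum]
    congr 1
    apply Finset.sum_congr rfl
    intro a ha
    have hne : x ≠ a := by
      rintro rfl
      exact h.1 (by simpa using ha)
    rw [cns_single, List.erase_cons_tail (by simpa using hne)]

theorem sort_erase (F : Finset (Fin n)) (a : Fin n) :
    (F.sort (· ≤ ·)).erase a = (F.erase a).sort (· ≤ ·) := by
  have h1 : ((F.sort (· ≤ ·)).erase a).Perm ((F.erase a).sort (· ≤ ·)) := by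
    apply List.perm_of_nodup_nodup_toFinset_eq
    · exact (F.sort_nodup _).erase a
    · exact Finset.sort_nodup _ _
    · ext b
      rw [List.mem_toFinset, (F.sort_nodup _).mem_erase_iff, Finset.mem_sort, Finset.sort_toFinset,
        Finset.mem_erase]
  apply List.Perm.eq_of_pairwise' (r := (· ≤ ·)) _ _ h1
  · exact (F.pairwise_sort (· ≤ ·)).sublist List.erase_sublist
  · exact Finset.pairwise_sort _ _

theorem bd_st (c : SC n) : bd (st c) = st (dS c) := by
  have : bd ∘ₗ st = st ∘ₗ (dS : SC n →ₗ[ZMod 2] SC n) := by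
    apply Finsupp.lhom_ext
    intro F a
    simp only [LinearMap.comp_apply, st_single, dS_single, bd_single, map_sum]
    rw [bdL_nodup _ (F.sort_nodup _), Finset.sort_toFinset, Finset.smul_sum]
    apply Finset.sum_congr rfl
    intro v _
    rw [sort_erase]
    simp
  exact congrArg (fun f => f c) this

theorem dS_apply (c : SC n) (E : Finset (Fin n)) :
    (dS c) E = ∑ v ∈ Finset.univ \ E, c (insert v E) := by
  have key : ∀ (F : Finset (Fin n)) (a : ZMod 2), (dS (Finsupp.single F a)) E =
      ∑ v ∈ Finset.univ \ E, (Finsupp.single F a : SC n) (insert v E) := by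
    intro F a
    rw [dS_single, Finsupp.finsetSum_apply]
    simp only [Finsupp.single_apply]
    rw [← Finset.sum_filter, ← Finset.sum_filter]
    rw [Finset.sum_const, Finset.sum_const]
    congr 1
    apply congrArg Finset.card
    ext v
    simp only [Finset.mem_filter, Finset.mem_sdiff, Finset.mem_univ, true_and]
    constructor
    · rintro ⟨hv, rfl⟩
      exact ⟨Finset.notMem_erase v F, (Finset.insert_erase hv).symm⟩
    · rintro ⟨hv, rfl⟩
      exact ⟨Finset.mem_insert_self _ _, Finset.erase_insert hv⟩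
  induction c using Finsupp.induction_linear with
  | zero => simp
  | add f g hf hg =>
    rw [map_add, Finsupp.add_apply, hf, hg, ← Finset.sum_add_distrib]
    rfl
  | single F a => exact key F a

/-- faces version of supports -/
theorem fc_support {P : List (Fin n) → Prop} {c : Ch (Fin n)} (hc : c ∈ On P)
    {F : Finset (Fin n)} (hF : (fc c) F ≠ 0) : ∃ l, P l ∧ l.Nodup ∧ l.toFinset = F := by
  by_contra hcon
  push Not at hcon
  apply hF
  rw [mem_On] at hc
  unfold fc
  rw [Finsupp.linearCombination_apply, Finsupp.sum, Finsupp.finsetSum_apply]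
  apply Finset.sum_eq_zero
  intro l hl
  rw [Finsupp.smul_apply, fcL_eq]
  by_cases h : l.Nodup
  · rw [if_pos h, Finsupp.single_apply, if_neg (hcon l (hc l hl) h), smul_zero]
  · rw [if_neg h]
    simp

theorem st_mem_On {P : List (Fin n) → Prop} {c : SC n}
    (h : ∀ F, c F ≠ 0 → P (F.sort (· ≤ ·))) : st c ∈ On P := by
  unfold st
  rw [Finsupp.linearCombination_apply]
  apply Submodule.sum_mem
  intro F hF
  apply Submodule.smul_mem
  apply single_mem_On
  exact h F (by simpa using hF)

/-- **Exactness below the top dimension** for a complex whose realization is a closed ball. -/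
theorem exact_of_ball {m : ℕ} {K : Finset (Finset (Fin n))} (hdown : ∀ F ∈ K, ∀ F' ⊆ F, F' ∈ K)
    (φ : Rz K ≃ₜ Metric.closedBall (0 : EuclideanSpace ℝ (Fin m)) 1)
    {G : Finset (Fin n)} (hG : G ∈ K) {k : ℕ} (hk : k ≤ m) (z : Finset (Fin n) → ZMod 2)
    (hz : ∀ F, z F ≠ 0 → F ∈ K ∧ G ⊆ F ∧ F.card = k)
    (hbz : ∀ E, G ⊆ E → ∑ v ∈ Finset.univ \ E, z (insert v E) = 0) :
    ∃ u : Finset (Fin n) → ZMod 2, (∀ F, u F ≠ 0 → F ∈ K ∧ G ⊆ F ∧ F.card = k + 1) ∧
      ∀ F, G ⊆ F → ∑ v ∈ Finset.univ \ F, u (insert v F) = z F := by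
  classical
  let zf : SC n := Finsupp.equivFunOnFinite.symm z
  have hzf : ∀ F, zf F = z F := fun F => rfl
  have hzl : st zf ∈ On (fun l : List (Fin n) => l.length = k ∧ l.toFinset ∈ K) := by
    apply st_mem_On
    intro F hF
    rw [hzf] at hF
    obtain ⟨h1, h2, h3⟩ := hz F hF
    rw [Finset.length_sort, Finset.sort_toFinset]
    exact ⟨h3, h1⟩
  have hbzl : bd (st zf) ∈ On (fun l : List (Fin n) => ¬ G ⊆ l.toFinset) := by
    rw [bd_st]
    apply st_mem_On
    intro F hF hGF
    rw [Finset.sort_toFinset] at hGF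
    apply hF
    rw [dS_apply]
    exact hbz F hGF
  obtain ⟨ul, hul, hul2⟩ := list_exact hdown φ hG hk hzl hbzl
  refine ⟨fun F => if G ⊆ F then fc ul F else 0, ?_, ?_⟩
  · intro F hF
    by_cases hGF : G ⊆ F
    · simp only [hGF, if_true] at hF
      obtain ⟨l, ⟨h1, h2⟩, h3, h4⟩ := fc_support hul hF
      refine ⟨h4 ▸ h2, hGF, ?_⟩
      rw [← h4, List.toFinset_card_of_nodup h3, h1]
    · simp [hGF] at hF
  · intro F hGF
    have h1 : ∑ v ∈ Finset.univ \ F, (if G ⊆ insert v F then fc ul (insert v F) else 0) =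
        (dS (fc ul)) F := by
      rw [dS_apply]
      apply Finset.sum_congr rfl
      intro v _
      rw [if_pos (hGF.trans (Finset.subset_insert v F))]
    rw [h1, dS_fc]
    have h2 : bd ul = (bd ul + st zf) + st zf := by
      rw [add_assoc, ch_add_self, add_zero]
    rw [h2, map_add, fc_st, Finsupp.add_apply, hzf]
    have h3 : fc (bd ul + st zf) F = 0 := by
      by_contra hne
      obtain ⟨l, h4, h5, h6⟩ := fc_support hul2 hne
      rw [h6] at h4
      exact h4 hGF
    rw [h3, zero_add]

end Pool.Agent.BallCM
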