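import Pool.Agent.Lib_helper83.BallCM.Select

/-!
A finite simplicial complex whose realization is a closed ball: exactness below the top
dimension of the chains of faces containing a given face (list version).
-/

namespace Pool.Agent.BallCM

variable {n : ℕ}

/-- vertices as points -/
noncomputable def vtx (a : Fin n) : Fin n → ℝ := Pi.single a 1

/-- the closed simplex spanned by a list of vertices -/
def Tl (l : List (Fin n)) : Set (Fin n → ℝ) :=
  {x | (∀ j, 0 ≤ x j) ∧ ∑ j, x j = 1 ∧ ∀ j, x j ≠ 0 → j ∈ l}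

theorem Tl_convex (l : List (Fin n)) : Convex ℝ (Tl l) := by
  rintro x ⟨hx0, hxs, hx⟩ y ⟨hy0, hys, hy⟩ a b ha hb hab
  refine ⟨?_, ?_, ?_⟩
  · intro j
    simp only [Pi.add_apply, Pi.smul_apply, smul_eq_mul]
    have := hx0 j
    have := hy0 j
    positivity
  · simp only [Pi.add_apply, Pi.smul_apply, smul_eq_mul]
    rw [Finset.sum_add_distrib, ← Finset.mul_sum, ← Finset.mul_sum, hxs, hys]
    linarith
  · intro j hj
    simp only [Pi.add_apply, Pi.smul_apply, smul_eq_mul] at hj
    by_contra h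
    have h1 : x j = 0 := by
      by_contra h'
      exact h (hx j h')
    have h2 : y j = 0 := by
      by_contra h'
      exact h (hy j h')
    rw [h1, h2] at hj
    simp at hj

theorem vtx_mem_Tl {l : List (Fin n)} {a : Fin n} (ha : a ∈ l) : vtx a ∈ Tl l := by
  refine ⟨?_, ?_, ?_⟩
  · intro j
    unfold vtx
    rw [Pi.single_apply]
    split_ifs <;> norm_num
  · unfold vtx
    rw [Finset.sum_pi_single']
    simp
  · intro j hj
    unfold vtx at hj
    rw [Pi.single_apply] at hj
    by_cases h : j = a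
    · rw [h]; exact ha
    · simp [h] at hj

theorem hull_map_vtx (l : List (Fin n)) : hull (l.map vtx) ⊆ Tl l := by
  apply convexHull_min _ (Tl_convex l)
  intro x hx
  simp only [Set.mem_ofPred_eq, List.mem_map] at hx
  obtain ⟨a, ha, rfl⟩ := hx
  exact vtx_mem_Tl ha

theorem Tl_sub_Rz {K : Finset (Finset (Fin n))} {l : List (Fin n)} (hl : l.toFinset ∈ K) :
    Tl l ⊆ Rz K := by
  rintro x ⟨h0, hs, h⟩
  exact ⟨h0, hs, l.toFinset, hl, fun j hj => by simpa using h j hj⟩

theorem ext_mp {X Y Z : Type*} (S : List Y → Ch Z) (f : X → Y) (c : Ch X) :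
    ext S (mp f c) = ext (fun l => S (l.map f)) c := by
  have : ext S ∘ₗ mp f = ext (fun l => S (l.map f)) := by
    apply Finsupp.lhom_ext
    intro l a
    simp
  exact congrArg (fun f => f c) this

theorem mp_ext {X Y Z : Type*} (S : List X → Ch Y) (f : Y → Z) (c : Ch X) :
    mp f (ext S c) = ext (fun l => mp f (S l)) c := by
  have : mp f ∘ₗ ext S = ext (fun l => mp f (S l)) := by
    apply Finsupp.lhom_ext
    intro l a
    simp
  exact congrArg (fun f => f c) this

/-- final assembly -/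
theorem assembly {K : Finset (Finset (Fin n))} (hdown : ∀ F ∈ K, ∀ F' ⊆ F, F' ∈ K)
    {G : Finset (Fin n)} {k : ℕ} {z : Ch (Fin n)}
    (hz : z ∈ On (fun l => l.length = k ∧ l.toFinset ∈ K))
    (hbz : bd z ∈ On (fun l => ¬ G ⊆ l.toFinset))
    {ν : (Fin n → ℝ) → Fin n}
    (hν : ∀ y : Fin n → ℝ, (∀ j, 0 ≤ y j) → ∑ j, y j = 1 → 0 < y (ν y))
    {S : List (Fin n → ℝ) → Ch (Fin n → ℝ)} (hS0 : S [] = Finsupp.single [] 1)
    (hS : ∀ l, l.length ≤ k + 1 → bd (S l) = ext S (bdL l))
    (hSC : ∀ l, l.length ≤ k + 1 → S l ∈ On (fun l' => l'.length = l.length ∧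
      (∀ y ∈ l', y ∈ hull l)))
    {uK : Ch (Fin n)} (huK : uK ∈ On (fun l => l.length = k + 1 ∧ l.toFinset ∈ K))
    (h : bd uK + mp ν (ext (fun l => S (l.map vtx)) z) ∈ On (fun l => ¬ G ⊆ l.toFinset)) :
    ∃ u ∈ On (fun l : List (Fin n) => l.length = k + 1 ∧ l.toFinset ∈ K),
      bd u + z ∈ On (fun l => ¬ G ⊆ l.toFinset) := by
  classical
  obtain ⟨D, hD0, hD, hDC⟩ := carrier_homotopy (k + 1)
    (fun l : List (Fin n) => Finsupp.single l (1 : ZMod 2))
    (fun l : List (Fin n) => mp ν (S (l.map vtx)))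
    (fun l => {a | a ∈ l})
    (by
      intro l hl
      obtain ⟨a, ha⟩ := List.exists_mem_of_ne_nil l hl
      exact ⟨a, ha⟩)
    (by
      intro l l' hll' a ha
      exact hll'.subset ha)
    (by simp [hS0])
    (by
      intro l hl
      rw [bd_single, one_smul, ext_single_id])
    (by
      intro l hl
      rw [bd_mp, hS _ (by simpa using hl), ← mp_bdL, ext_mp, mp_ext])
    (by
      intro l hl
      apply single_mem_On
      exact ⟨rfl, fun y hy => hy⟩)
    (by
      intro l hl
      apply mp_mem_On ν _ (hSC (l.map vtx) (by simpa using hl))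
      rintro l' ⟨h1, h2⟩
      refine ⟨by simpa using h1, ?_⟩
      intro a ha
      rw [List.mem_map] at ha
      obtain ⟨y, hy, rfl⟩ := ha
      obtain ⟨h3, h4, h5⟩ := hull_map_vtx l (h2 y hy)
      exact h5 _ (hν y h3 h4).ne')
  have hzN : z ∈ On (fun l : List (Fin n) => l.length ≤ k + 1) :=
    On_mono (fun l h => by have := h.1; omega) hz
  refine ⟨ext D z + uK, ?_, ?_⟩
  · apply Submodule.add_mem _ _ huK
    apply ext_mem_On _ _ hz
    rintro l ⟨h1, h2⟩
    apply On_mono _ (hDC l (by omega))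
    rintro l' ⟨h3, h4⟩
    refine ⟨by omega, ?_⟩
    apply hdown _ h2
    intro a ha
    rw [List.mem_toFinset] at ha ⊢
    exact h4 a ha
  · have hid : bd (ext D z + uK) + z =
        ext D (bd z) + (bd uK + mp ν (ext (fun l => S (l.map vtx)) z)) := by
      rw [map_add, homotopy_ext hD hzN, ext_single_id, mp_ext]
      have h1 := ch_add_self z
      have h2 : ∀ a b c d : Ch (Fin n), a + a = 0 → a + b + c + d + a = c + (d + b) := by
        intro a b c d ha
        have : a + b + c + d + a = c + (d + b) + (a + a) := by abel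
        rw [this, ha, add_zero]
      exact h2 _ _ _ _ h1
    rw [hid]
    apply Submodule.add_mem _ _ h
    have hbz' : bd z ∈ On (fun l => l.length + 1 = k ∧ ¬ G ⊆ l.toFinset) := by
      apply On_and _ hbz
      apply bd_mem_On _ hz
      rintro l ⟨h1, h2⟩ l' h3 h4
      omega
    apply ext_mem_On _ _ hbz'
    rintro l ⟨h1, h2⟩
    apply On_mono _ (hDC l (by omega))
    rintro l' ⟨h3, h4⟩ hsub
    apply h2
    intro a ha
    have := hsub ha
    rw [List.mem_toFinset] at this ⊢
    exact h4 a this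

theorem On_false {X : Type*} {P : List X → Prop} (h : ∀ l, ¬ P l) {c : Ch X} (hc : c ∈ On P) :
    c = 0 := by
  rw [mem_On] at hc
  rw [← Finsupp.support_eq_empty]
  rw [Finset.eq_empty_iff_forall_notMem]
  exact fun l hl => h l (hc l hl)

theorem list_exact {m : ℕ} {K : Finset (Finset (Fin n))} (hdown : ∀ F ∈ K, ∀ F' ⊆ F, F' ∈ K)
    (φ : Rz K ≃ₜ Metric.closedBall (0 : EuclideanSpace ℝ (Fin m)) 1)
    {G : Finset (Fin n)} (hG : G ∈ K) {k : ℕ} (hk : k ≤ m) {z : Ch (Fin n)}
    (hz : z ∈ On (fun l => l.length = k ∧ l.toFinset ∈ K))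
    (hbz : bd z ∈ On (fun l => ¬ G ⊆ l.toFinset)) :
    ∃ u ∈ On (fun l : List (Fin n) => l.length = k + 1 ∧ l.toFinset ∈ K),
      bd u + z ∈ On (fun l => ¬ G ⊆ l.toFinset) := by
  classical
  -- ambient extensions
  let h : (Fin n → ℝ) → EuclideanSpace ℝ (Fin m) := fun y =>
    if hy : y ∈ Rz K then (φ ⟨y, hy⟩ : EuclideanSpace ℝ (Fin m)) else 0
  let g : EuclideanSpace ℝ (Fin m) → (Fin n → ℝ) := fun b =>
    if hb : b ∈ Metric.closedBall (0 : EuclideanSpace ℝ (Fin m)) 1 then
      (φ.symm ⟨b, hb⟩ : Fin n → ℝ) else 0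
  have hh : ∀ y (hy : y ∈ Rz K), h y = φ ⟨y, hy⟩ := by
    intro y hy
    simp only [h, hy, dif_pos]
  have hg : ∀ b (hb : b ∈ Metric.closedBall (0 : EuclideanSpace ℝ (Fin m)) 1),
      g b = φ.symm ⟨b, hb⟩ := by
    intro b hb
    simp only [g, hb, dif_pos]
  have hh1 : ∀ y ∈ Rz K, h y ∈ Metric.closedBall (0 : EuclideanSpace ℝ (Fin m)) 1 := by
    intro y hy
    rw [hh y hy]
    exact (φ ⟨y, hy⟩).2
  have hh1' : ∀ y ∈ Rz K, ‖h y‖ ≤ 1 := fun y hy => by simpa using hh1 y hy
  have hg1 : ∀ b : EuclideanSpace ℝ (Fin m), ‖b‖ ≤ 1 → g b ∈ Rz K := by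
    intro b hb
    rw [hg b (by simpa using hb)]
    exact (φ.symm ⟨b, _⟩).2
  have hgh : ∀ y ∈ Rz K, g (h y) = y := by
    intro y hy
    rw [hg (h y) (hh1 y hy)]
    have : (⟨h y, hh1 y hy⟩ : Metric.closedBall (0 : EuclideanSpace ℝ (Fin m)) 1) =
        φ ⟨y, hy⟩ := Subtype.ext (hh y hy)
    rw [this, Homeomorph.symm_apply_apply]
  have hhg : ∀ b : EuclideanSpace ℝ (Fin m), ‖b‖ ≤ 1 → h (g b) = b := by
    intro b hb
    have hb' : b ∈ Metric.closedBall (0 : EuclideanSpace ℝ (Fin m)) 1 := by simpa using hb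
    rw [hh (g b) (hg1 b hb)]
    have : (⟨g b, hg1 b hb⟩ : Rz K) = φ.symm ⟨b, hb'⟩ := Subtype.ext (hg b hb')
    rw [this, Homeomorph.apply_symm_apply]
  have hballc : IsCompact (Metric.closedBall (0 : EuclideanSpace ℝ (Fin m)) 1) :=
    isCompact_closedBall _ _
  have hRzc : IsCompact (Rz K) := by
    rw [isCompact_iff_compactSpace] at hballc ⊢
    exact φ.symm.compactSpace
  have hhc : ContinuousOn h (Rz K) := by
    rw [continuousOn_iff_continuous_domRestrict]
    have : (Rz K).domRestrict h = Subtype.val ∘ φ := by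
      funext y
      exact hh y.1 y.2
    rw [this]
    exact continuous_subtype_val.comp φ.continuous
  have hgc : ContinuousOn g (Metric.closedBall (0 : EuclideanSpace ℝ (Fin m)) 1) := by
    rw [continuousOn_iff_continuous_domRestrict]
    have : (Metric.closedBall (0 : EuclideanSpace ℝ (Fin m)) 1).domRestrict g =
        Subtype.val ∘ φ.symm := by
      funext y
      exact hg y.1 y.2
    rw [this]
    exact continuous_subtype_val.comp φ.symm.continuous
  have hhu := hRzc.uniformContinuousOn_of_continuous hhc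
  have hgu := hballc.uniformContinuousOn_of_continuous hgc
  rw [Metric.uniformContinuousOn_iff_le] at hhu hgu
  have hmemball : ∀ b : EuclideanSpace ℝ (Fin m), ‖b‖ ≤ 1 →
      b ∈ Metric.closedBall (0 : EuclideanSpace ℝ (Fin m)) 1 := fun b hb => by simpa using hb
  have hpow : ∀ (ε : ℝ), 0 < ε → ∀ j : ℕ, ε * (1 - (1 / 2) ^ j) ≤ ε := by
    intro ε hε j
    have : (0 : ℝ) ≤ (1 / 2) ^ j := by positivity
    nlinarith
  rcases Finset.eq_empty_or_nonempty G with hGe | hGne
  · -- the complex is acyclic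
    subst hGe
    have hbz0 : bd z = 0 := On_false (fun l hl => hl (Finset.empty_subset _)) hbz
    have hRne : (Rz K).Nonempty := by
      have : (0 : EuclideanSpace ℝ (Fin m)) ∈
          Metric.closedBall (0 : EuclideanSpace ℝ (Fin m)) 1 := by simp
      exact ⟨_, (φ.symm ⟨0, this⟩).2⟩
    obtain ⟨ν, δX, hδX, hν1, hν2⟩ := exists_select_empty K hdown hRne
    obtain ⟨δB, hδB, hδB'⟩ := hgu δX hδX
    obtain ⟨ε, hε, hε'⟩ := hhu (δB / 2) (half_pos hδB)
    obtain ⟨S, D, hS0, hD0, hS, hD, hSC, hDC⟩ := exists_subdiv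
      (E := Fin n → ℝ) hε (k + 1)
    have hSz : ext (fun l => S (l.map vtx)) z ∈ On (fun l => l.length = k ∧
        (∀ y ∈ l, y ∈ Rz K) ∧ Small ε l) := by
      apply ext_mem_On _ _ hz
      rintro l ⟨h1, h2⟩
      apply On_mono _ (hSC (l.map vtx) (by simp; omega))
      rintro l' ⟨h3, h4, h5⟩
      exact ⟨by simpa [h1] using h3, fun y hy => Tl_sub_Rz h2 (hull_map_vtx l (h4 y hy)),
        h5.mono (hpow ε hε _)⟩
    have hw : mp h (ext (fun l => S (l.map vtx)) z) ∈ On (fun l => l.length = k ∧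
        (∀ y ∈ l, y ∈ Metric.closedBall (0 : EuclideanSpace ℝ (Fin m)) 1) ∧
        Small (δB / 2) l) := by
      apply mp_mem_On h _ hSz
      rintro l ⟨h1, h2, h3⟩
      refine ⟨by simpa using h1, ?_, ?_⟩
      · intro b hb
        rw [List.mem_map] at hb
        obtain ⟨y, hy, rfl⟩ := hb
        exact hh1 y (h2 y hy)
      · intro b hb b' hb'
        rw [List.mem_map] at hb hb'
        obtain ⟨y, hy, rfl⟩ := hb
        obtain ⟨y', hy', rfl⟩ := hb'
        exact hε' y (h2 y hy) y' (h2 y' hy') (h3 y hy y' hy')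
    have hSchain : bd (ext (fun l : List (Fin n) => S (l.map vtx)) z) = 0 := by
      rw [chainmap_ext (N := k + 1) (f := fun l : List (Fin n) => S (l.map vtx)) _ _, hbz0,
        map_zero]
      · intro l hl
        rw [hS _ (by simpa using hl), ← mp_bdL, ext_mp]
      · exact On_mono (fun l h => by have := h.1; omega) hz
    have hwbd : bd (mp h (ext (fun l => S (l.map vtx)) z)) = 0 := by
      rw [bd_mp, hSchain, map_zero]
    obtain ⟨u, hu, hubd⟩ := fill_convex (convex_closedBall _ _)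
      ⟨0, by simp⟩ (half_pos hδB).le (half_pos hδB) hw hwbd
    refine assembly (ν := ν) (S := S) hdown hz hbz hν1 hS0 hS
      (fun l hl => On_mono (fun l' h' => ⟨h'.1, h'.2.1⟩) (hSC l hl))
      (uK := mp (ν ∘ g) u) ?_ ?_
    · apply mp_mem_On _ _ hu
      rintro l ⟨h1, h2, h3⟩
      refine ⟨by simpa using h1, ?_⟩
      rw [← List.map_map]
      apply hν2
      · intro y hy
        rw [List.mem_map] at hy
        obtain ⟨b, hb, rfl⟩ := hy
        exact hg1 b (by simpa using h2 b hb)
      · intro y hy y' hy'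
        rw [List.mem_map] at hy hy'
        obtain ⟨b, hb, rfl⟩ := hy
        obtain ⟨b', hb', rfl⟩ := hy'
        apply hδB' b (h2 b hb) b' (h2 b' hb')
        have := h3 b hb b' hb'
        linarith
    · have h1 : bd (mp (ν ∘ g) u) + mp ν (ext (fun l => S (l.map vtx)) z) = 0 := by
        rw [bd_mp, hubd, mp_mp]
        have h2 : mp ((ν ∘ g) ∘ h) (ext (fun l => S (l.map vtx)) z) =
            mp ν (ext (fun l => S (l.map vtx)) z) := by
          apply mp_congr_On _ hSz
          rintro l ⟨h3, h4, h5⟩ y hy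
          simp only [Function.comp_apply]
          rw [hgh y (h4 y hy)]
        rw [h2]
        exact ch_add_self _
      rw [h1]
      exact Submodule.zero_mem _
  · -- local exactness
    have hp0 : bary G ∈ Rz K := bary_mem_Rz hGne hG
    have hcard : (0 : ℝ) < G.card := by exact_mod_cast Finset.card_pos.2 hGne
    -- distance from the faces not containing G
    have hdistG : ∀ y : Fin n → ℝ, (∃ a ∈ G, y a = 0) → 1 / (G.card : ℝ) ≤ dist y (bary G) := by
      rintro y ⟨a, ha, hya⟩
      have h1 := dist_coord (x := y) (y := bary G) a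
      have h2 : bary G a = 1 / G.card := by simp [bary, ha]
      rw [hya, h2, zero_sub, abs_neg, abs_of_pos (by positivity)] at h1
      exact h1
    obtain ⟨r1', hr1', hr1''⟩ := hgu (1 / (G.card : ℝ) / 2) (by positivity)
    have hr1 : ∀ y ∈ Rz K, (∃ a ∈ G, y a = 0) → r1' ≤ dist (h y) (h (bary G)) := by
      intro y hy hya
      by_contra hlt
      push Not at hlt
      have h1 := hr1'' (h y) (hh1 y hy) (h (bary G)) (hh1 _ hp0) hlt.le
      rw [hgh y hy, hgh _ hp0] at h1
      have h2 := hdistG y hya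
      have h3 : (0 : ℝ) < 1 / G.card := by positivity
      linarith
    obtain ⟨r2, hr2, hpush⟩ := push_ball (h (bary G)) (hh1' _ hp0) hr1' hk
    obtain ⟨r', hr', hr''⟩ := hhu (r2 / 2) (half_pos hr2)
    have hfar : ∀ b : EuclideanSpace ℝ (Fin m), ‖b‖ ≤ 1 → r2 ≤ dist b (h (bary G)) →
        r' ≤ dist (g b) (bary G) := by
      intro b hb hbr
      by_contra hlt
      push Not at hlt
      have h1 := hr'' (g b) (hg1 b hb) (bary G) hp0 hlt.le
      rw [hhg b hb] at h1
      linarith
    obtain ⟨ν, δX, hδX, hν1, hν2, hν3⟩ := exists_select K hdown hGne hG hr'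
    obtain ⟨δB, hδB, hδB'⟩ := hgu δX hδX
    obtain ⟨δ', hδ', hpush'⟩ := hpush δB hδB
    obtain ⟨ε, hε, hε'⟩ := hhu δ' hδ'
    obtain ⟨S, D, hS0, hD0, hS, hD, hSC, hDC⟩ := exists_subdiv
      (E := Fin n → ℝ) hε (k + 1)
    have hSz : ext (fun l => S (l.map vtx)) z ∈ On (fun l => l.length = k ∧
        (∀ y ∈ l, y ∈ Rz K) ∧ Small ε l) := by
      apply ext_mem_On _ _ hz
      rintro l ⟨h1, h2⟩
      apply On_mono _ (hSC (l.map vtx) (by simp; omega))
      rintro l' ⟨h3, h4, h5⟩
      exact ⟨by simpa [h1] using h3, fun y hy => Tl_sub_Rz h2 (hull_map_vtx l (h4 y hy)),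
        h5.mono (hpow ε hε _)⟩
    have hw : mp h (ext (fun l => S (l.map vtx)) z) ∈ On (fun l => l.length = k ∧
        (∀ y ∈ l, ‖y‖ ≤ 1) ∧ Small δ' l) := by
      apply mp_mem_On h _ hSz
      rintro l ⟨h1, h2, h3⟩
      refine ⟨by simpa using h1, ?_, ?_⟩
      · intro b hb
        rw [List.mem_map] at hb
        obtain ⟨y, hy, rfl⟩ := hb
        exact hh1' y (h2 y hy)
      · intro b hb b' hb'
        rw [List.mem_map] at hb hb'
        obtain ⟨y, hy, rfl⟩ := hb
        obtain ⟨y', hy', rfl⟩ := hb'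
        exact hε' y (h2 y hy) y' (h2 y' hy') (h3 y hy y' hy')
    have hbz' : bd z ∈ On (fun l => (l.length + 1 = k ∧ l.toFinset ∈ K) ∧ ¬ G ⊆ l.toFinset) := by
      apply On_and _ hbz
      apply bd_mem_On _ hz
      rintro l ⟨h1, h2⟩ l' h3 h4
      refine ⟨by omega, hdown _ h2 _ ?_⟩
      intro a ha
      rw [List.mem_toFinset] at ha ⊢
      exact h3.subset ha
    have hSbz : ext (fun l => S (l.map vtx)) (bd z) ∈ On (fun l =>
        ∀ y ∈ l, y ∈ Rz K ∧ ∃ a ∈ G, y a = 0) := by
      apply ext_mem_On _ _ hbz'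
      rintro l ⟨⟨h1, h2⟩, h3⟩
      apply On_mono _ (hSC (l.map vtx) (by simp; omega))
      rintro l' ⟨h4, h5, h6⟩ y hy
      have h7 := hull_map_vtx l (h5 y hy)
      refine ⟨Tl_sub_Rz h2 h7, ?_⟩
      rw [Finset.not_subset] at h3
      obtain ⟨a, haG, hal⟩ := h3
      refine ⟨a, haG, ?_⟩
      by_contra hne
      exact hal (by simpa using h7.2.2 a hne)
    have hSchain : bd (ext (fun l : List (Fin n) => S (l.map vtx)) z) =
        ext (fun l : List (Fin n) => S (l.map vtx)) (bd z) := by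
      apply chainmap_ext (N := k + 1) (f := fun l : List (Fin n) => S (l.map vtx))
      · intro l hl
        rw [hS _ (by simpa using hl), ← mp_bdL, ext_mp]
      · exact On_mono (fun l h => by have := h.1; omega) hz
    have hwbd : bd (mp h (ext (fun l => S (l.map vtx)) z)) ∈
        On (fun l => ∀ y ∈ l, r1' ≤ dist y (h (bary G))) := by
      rw [bd_mp, hSchain]
      apply mp_mem_On h _ hSbz
      intro l hl b hb
      rw [List.mem_map] at hb
      obtain ⟨y, hy, rfl⟩ := hb
      exact hr1 y (hl y hy).1 (hl y hy).2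
    obtain ⟨u, hu, hu2⟩ := hpush' _ hw hwbd
    refine assembly (ν := ν) (S := S) hdown hz hbz hν1 hS0 hS
      (fun l hl => On_mono (fun l' h' => ⟨h'.1, h'.2.1⟩) (hSC l hl))
      (uK := mp (ν ∘ g) u) ?_ ?_
    · apply mp_mem_On _ _ hu
      rintro l ⟨h1, h2, h3⟩
      refine ⟨by simpa using h1, ?_⟩
      rw [← List.map_map]
      apply hν2
      · intro y hy
        rw [List.mem_map] at hy
        obtain ⟨b, hb, rfl⟩ := hy
        exact hg1 b (h2 b hb)
      · intro y hy y' hy'
        rw [List.mem_map] at hy hy'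
        obtain ⟨b, hb, rfl⟩ := hy
        obtain ⟨b', hb', rfl⟩ := hy'
        exact hδB' b (hmemball b (h2 b hb)) b' (hmemball b' (h2 b' hb')) (h3 b hb b' hb')
    · have h1 : bd (mp (ν ∘ g) u) + mp ν (ext (fun l => S (l.map vtx)) z) =
          mp (ν ∘ g) (bd u + mp h (ext (fun l => S (l.map vtx)) z)) := by
        rw [bd_mp, map_add, mp_mp]
        have h2 : mp ((ν ∘ g) ∘ h) (ext (fun l => S (l.map vtx)) z) =
            mp ν (ext (fun l => S (l.map vtx)) z) := by
          apply mp_congr_On _ hSz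
          rintro l ⟨h3, h4, h5⟩ y hy
          simp only [Function.comp_apply]
          rw [hgh y (h4 y hy)]
        rw [h2]
      rw [h1]
      apply mp_mem_On _ _ hu2
      rintro l ⟨h2, h3, h4, h5⟩
      rw [← List.map_map]
      apply hν3
      · intro y hy
        rw [List.mem_map] at hy
        obtain ⟨b, hb, rfl⟩ := hy
        exact hg1 b (h3 b hb)
      · intro y hy y' hy'
        rw [List.mem_map] at hy hy'
        obtain ⟨b, hb, rfl⟩ := hy
        obtain ⟨b', hb', rfl⟩ := hy'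
        exact hδB' b (hmemball b (h3 b hb)) b' (hmemball b' (h3 b' hb')) (h4 b hb b' hb')
      · intro y hy
        rw [List.mem_map] at hy
        obtain ⟨b, hb, rfl⟩ := hy
        exact hfar b (h3 b hb) (h5 b hb)

end Pool.Agent.BallCM
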