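import Pool.Agent.Lib_helper83.BallCM.Ball

/-!
Selection of a vertex for each point of a simplicial complex.
-/

namespace Pool.Agent.BallCM

variable {n : ℕ}

/-- geometric realization -/
def Rz (K : Finset (Finset (Fin n))) : Set (Fin n → ℝ) :=
  {x | (∀ j, 0 ≤ x j) ∧ ∑ j, x j = 1 ∧ ∃ G ∈ K, ∀ j, x j ≠ 0 → j ∈ G}

/-- barycentre of a face -/
noncomputable def bary (G : Finset (Fin n)) : Fin n → ℝ := fun j => if j ∈ G then 1 / (G.card : ℝ) else 0

theorem bary_nonneg (G : Finset (Fin n)) (j : Fin n) : 0 ≤ bary G j := by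
  unfold bary
  split_ifs
  · positivity
  · exact le_rfl

theorem bary_sum {G : Finset (Fin n)} (hG : G.Nonempty) : ∑ j, bary G j = 1 := by
  unfold bary
  rw [Finset.sum_ite_mem, Finset.univ_inter, Finset.sum_const, nsmul_eq_mul]
  have : (G.card : ℝ) ≠ 0 := by
    have := Finset.card_pos.2 hG
    positivity
  field_simp

theorem bary_mem_Rz {K : Finset (Finset (Fin n))} {G : Finset (Fin n)} (hG : G.Nonempty)
    (hGK : G ∈ K) : bary G ∈ Rz K := by
  refine ⟨bary_nonneg G, bary_sum hG, G, hGK, ?_⟩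
  intro j hj
  by_contra h
  exact hj (by simp [bary, h])

theorem dist_coord {x y : Fin n → ℝ} (j : Fin n) : |x j - y j| ≤ dist x y := by
  rw [← Real.dist_eq]
  exact dist_le_pi_dist x y j

theorem exists_select (K : Finset (Finset (Fin n))) (hdown : ∀ F ∈ K, ∀ F' ⊆ F, F' ∈ K)
    {G : Finset (Fin n)} (hG : G.Nonempty) (hGK : G ∈ K) {r : ℝ} (hr : 0 < r) :
    ∃ (ν : (Fin n → ℝ) → Fin n) (δ : ℝ), 0 < δ ∧
      (∀ y : Fin n → ℝ, (∀ j, 0 ≤ y j) → ∑ j, y j = 1 → 0 < y (ν y)) ∧
      (∀ l : List (Fin n → ℝ), (∀ y ∈ l, y ∈ Rz K) → Small δ l → (l.map ν).toFinset ∈ K) ∧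
      (∀ l : List (Fin n → ℝ), (∀ y ∈ l, y ∈ Rz K) → Small δ l →
        (∀ y ∈ l, r ≤ dist y (bary G)) → ¬ G ⊆ (l.map ν).toFinset) := by
  classical
  have hn : 0 < n := by
    obtain ⟨a, -⟩ := hG
    exact a.pos
  have hnR : (0 : ℝ) < n := by exact_mod_cast hn
  have hcard : (0 : ℝ) < G.card := by exact_mod_cast Finset.card_pos.2 hG
  set τ : ℝ := min r (1 / G.card) / (2 * n) with hτ
  have hmin : 0 < min r (1 / (G.card : ℝ)) := lt_min hr (by positivity)
  have hτ0 : 0 < τ := by positivity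
  have hτr : n * τ ≤ r / 2 := by
    have : n * τ = min r (1 / G.card) / 2 := by
      rw [hτ]; field_simp
    rw [this]
    have := min_le_left r (1 / (G.card : ℝ))
    linarith
  have hτG : n * τ ≤ 1 / G.card / 2 := by
    have : n * τ = min r (1 / G.card) / 2 := by
      rw [hτ]; field_simp
    rw [this]
    have := min_le_right r (1 / (G.card : ℝ))
    linarith
  have hn1 : (1 : ℝ) ≤ n := by exact_mod_cast hn
  obtain ⟨u0, hu0⟩ := hG
  have hGne : G.Nonempty := ⟨u0, hu0⟩
  let ν : (Fin n → ℝ) → Fin n := fun y =>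
    if h : ∃ w, τ ≤ y w - bary G w then h.choose else u0
  have hν1 : ∀ y, (∃ w, τ ≤ y w - bary G w) → τ ≤ y (ν y) - bary G (ν y) := by
    intro y h
    simp only [ν, h, dif_pos]
    exact h.choose_spec
  have hν2 : ∀ y, (¬ ∃ w, τ ≤ y w - bary G w) → ν y = u0 := by
    intro y h
    simp only [ν, h, dif_neg, not_false_iff]
  -- near case
  have hnear : ∀ y : Fin n → ℝ, ∑ j, y j = 1 → (¬ ∃ w, τ ≤ y w - bary G w) →
      ∀ w, |y w - bary G w| ≤ n * τ := by
    intro y hs h w
    push Not at h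
    have h1 : ∑ j, (y j - bary G j) = 0 := by
      rw [Finset.sum_sub_distrib, hs, bary_sum hGne, sub_self]
    have h2 : y w - bary G w = -∑ j ∈ Finset.univ.erase w, (y j - bary G j) := by
      rw [← Finset.add_sum_erase _ _ (Finset.mem_univ w)] at h1
      linarith
    have h3 : ∑ j ∈ Finset.univ.erase w, (y j - bary G j) ≤ n * τ := by
      calc ∑ j ∈ Finset.univ.erase w, (y j - bary G j)
          ≤ ∑ j ∈ Finset.univ.erase w, τ := Finset.sum_le_sum fun j _ => (h j).le
        _ = (n - 1) * τ := by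
            rw [Finset.sum_const, Finset.card_erase_of_mem (Finset.mem_univ w)]
            simp only [Finset.card_univ, Fintype.card_fin, nsmul_eq_mul]
            rw [Nat.cast_sub hn]
            simp
        _ ≤ n * τ := by nlinarith
    rw [abs_le]
    constructor
    · linarith
    · have := h w
      nlinarith
  have hnear' : ∀ y : Fin n → ℝ, ∑ j, y j = 1 → (¬ ∃ w, τ ≤ y w - bary G w) →
      1 / G.card / 2 ≤ y u0 := by
    intro y hs h
    have h1 := hnear y hs h u0
    rw [abs_le] at h1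
    have h2 : bary G u0 = 1 / G.card := by simp [bary, hu0]
    rw [h2] at h1
    linarith [h1.1]
  have hτn : τ ≤ n * τ := by nlinarith
  have hkey : ∀ y y' : Fin n → ℝ, (∑ j, y j = 1) → dist y y' ≤ τ / 2 →
      0 < y' (ν y) := by
    intro y y' hs hd
    have hc := dist_coord (x := y) (y := y') (ν y)
    rw [abs_le] at hc
    by_cases h : ∃ w, τ ≤ y w - bary G w
    · have h1 := hν1 y h
      have h2 := bary_nonneg G (ν y)
      linarith [hc.2]
    · have h1 := hν2 y h
      have h2 := hnear' y hs h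
      rw [h1] at hc ⊢
      have h3 : (0 : ℝ) < 1 / G.card := by positivity
      linarith [hc.2]
  refine ⟨ν, τ / 2, by positivity, ?_, ?_, ?_⟩
  · intro y _ hs
    exact hkey y y hs (by rw [dist_self]; positivity)
  · intro l hl hsm
    rcases l with _ | ⟨y0, l⟩
    · simpa using hdown G hGK ∅ (Finset.empty_subset _)
    · have hy0 : y0 ∈ (y0 :: l) := by simp
      obtain ⟨h0, hs, F, hFK, hF⟩ := hl y0 hy0
      apply hdown F hFK
      intro a ha
      rw [List.mem_toFinset, List.mem_map] at ha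
      obtain ⟨y, hy, rfl⟩ := ha
      apply hF
      have := hkey y y0 (hl y hy).2.1 (hsm y hy y0 hy0)
      exact this.ne'
  · intro l hl hsm hfar hsub
    rcases l with _ | ⟨y0, l⟩
    · have := hsub hu0
      simp at this
    · have hy0 : y0 ∈ (y0 :: l) := by simp
      obtain ⟨h0, hs, F, hFK, hF⟩ := hl y0 hy0
      have h1 : ∀ a ∈ G, bary G a + τ / 2 ≤ y0 a := by
        intro a ha
        have := hsub ha
        rw [List.mem_toFinset, List.mem_map] at this
        obtain ⟨y, hy, rfl⟩ := this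
        have hex : ∃ w, τ ≤ y w - bary G w := by
          by_contra h
          have h2 := hnear y (hl y hy).2.1 h
          have h3 := hfar y hy
          have h4 : dist y (bary G) ≤ n * τ := by
            rw [dist_pi_le_iff (by positivity)]
            intro j
            rw [Real.dist_eq]
            exact h2 j
          linarith
        have h2 := hν1 y hex
        have h3 := dist_coord (x := y) (y := y0) (ν y)
        rw [abs_le] at h3
        have h4 := hsm y hy y0 hy0
        linarith [h3.2]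
      have h2 : ∑ a ∈ G, (bary G a + τ / 2) ≤ ∑ a ∈ G, y0 a := Finset.sum_le_sum h1
      have h3 : ∑ a ∈ G, y0 a ≤ ∑ a, y0 a :=
        Finset.sum_le_sum_of_subset_of_nonneg (Finset.subset_univ _) (fun a _ _ => h0 a)
      have h4 : ∑ a ∈ G, bary G a = 1 := by
        rw [← bary_sum hGne]
        apply Finset.sum_subset (Finset.subset_univ _)
        intro a _ ha
        simp [bary, ha]
      rw [Finset.sum_add_distrib, h4, Finset.sum_const, nsmul_eq_mul] at h2
      have h5 : (0 : ℝ) < G.card * (τ / 2) := by positivity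
      linarith

theorem exists_select_empty (K : Finset (Finset (Fin n))) (hdown : ∀ F ∈ K, ∀ F' ⊆ F, F' ∈ K)
    (hK : (Rz K).Nonempty) :
    ∃ (ν : (Fin n → ℝ) → Fin n) (δ : ℝ), 0 < δ ∧
      (∀ y : Fin n → ℝ, (∀ j, 0 ≤ y j) → ∑ j, y j = 1 → 0 < y (ν y)) ∧
      (∀ l : List (Fin n → ℝ), (∀ y ∈ l, y ∈ Rz K) → Small δ l → (l.map ν).toFinset ∈ K) := by
  classical
  obtain ⟨x, hx0, hxs, F0, hF0, hxF⟩ := hK
  have hn : 0 < n := by
    rcases Nat.eq_zero_or_pos n with h | h
    · subst h
      simp at hxs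
    · exact h
  have hnR : (0 : ℝ) < n := by exact_mod_cast hn
  have hex : ∀ y : Fin n → ℝ, ∑ j, y j = 1 → ∃ w, 1 / (n : ℝ) ≤ y w := by
    intro y hs
    by_contra h
    push Not at h
    have : ∑ j, y j < ∑ j : Fin n, 1 / (n : ℝ) :=
      Finset.sum_lt_sum_of_nonempty ⟨⟨0, hn⟩, Finset.mem_univ _⟩ (fun j _ => h j)
    rw [hs, Finset.sum_const, Finset.card_univ, Fintype.card_fin, nsmul_eq_mul] at this
    have h2 : (n : ℝ) * (1 / n) = 1 := by field_simp
    linarith
  let ν : (Fin n → ℝ) → Fin n := fun y =>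
    if h : ∃ w, 1 / (n : ℝ) ≤ y w then h.choose else ⟨0, hn⟩
  have hν1 : ∀ y : Fin n → ℝ, ∑ j, y j = 1 → 1 / (n : ℝ) ≤ y (ν y) := by
    intro y hs
    have h := hex y hs
    simp only [ν, h, dif_pos]
    exact h.choose_spec
  have h1n : (0 : ℝ) < 1 / n := by positivity
  have hkey : ∀ y y' : Fin n → ℝ, (∑ j, y j = 1) → dist y y' ≤ 1 / n / 2 →
      0 < y' (ν y) := by
    intro y y' hs hd
    have hc := dist_coord (x := y) (y := y') (ν y)
    rw [abs_le] at hc
    have h1 := hν1 y hs
    linarith [hc.2]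
  refine ⟨ν, 1 / n / 2, by positivity, ?_, ?_⟩
  · intro y _ hs
    exact hkey y y hs (by rw [dist_self]; positivity)
  · intro l hl hsm
    rcases l with _ | ⟨y0, l⟩
    · simpa using hdown F0 hF0 ∅ (Finset.empty_subset _)
    · have hy0 : y0 ∈ (y0 :: l) := by simp
      obtain ⟨h0, hs, F, hFK, hF⟩ := hl y0 hy0
      apply hdown F hFK
      intro a ha
      rw [List.mem_toFinset, List.mem_map] at ha
      obtain ⟨y, hy, rfl⟩ := ha
      apply hF
      have := hkey y y0 (hl y hy).2.1 (hsm y hy y0 hy0)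
      exact this.ne'

end Pool.Agent.BallCM
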