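import Pool.Agent.Lib_helper83.BallCM.Faces

/-!
Consequences of the topological hypotheses in `S11249`.
-/

namespace Pool.Agent.BallCM

/-- the topological hypothesis of `S11249` -/
def TopHyp (d n : ℕ) (Γ : Finset (Finset (Fin n))) (σ : Finset (Fin n) → Finset (Fin d)) : Prop :=
  ∀ F : Finset (Fin d), F.Nonempty →
      ∃ φ : ↥{x : Fin n → ℝ | (∀ j, 0 ≤ x j) ∧ ∑ j, x j = 1 ∧
              ∃ G ∈ Γ, σ G ⊆ F ∧ ∀ j, x j ≠ 0 → j ∈ G} ≃ₜ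
            ↥(Metric.closedBall (0 : EuclideanSpace ℝ (Fin (F.card - 1))) 1),
        ∀ G ∈ Γ, G.Nonempty → σ G ⊆ F →
          (σ G = F ↔
            ∀ y : ↥{x : Fin n → ℝ | (∀ j, 0 ≤ x j) ∧ ∑ j, x j = 1 ∧
              ∃ G ∈ Γ, σ G ⊆ F ∧ ∀ j, x j ≠ 0 → j ∈ G},
              (∀ j, 0 < (y : Fin n → ℝ) j ↔ j ∈ G) →
                ‖(φ y : EuclideanSpace ℝ (Fin (F.card - 1)))‖ < 1)

variable {d n : ℕ} {Γ : Finset (Finset (Fin n))} {σ : Finset (Fin n) → Finset (Fin d)}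

theorem set_eq (U : Finset (Fin d)) :
    {x : Fin n → ℝ | (∀ j, 0 ≤ x j) ∧ ∑ j, x j = 1 ∧
              ∃ G ∈ Γ, σ G ⊆ U ∧ ∀ j, x j ≠ 0 → j ∈ G} = Rz (Γ.filter (fun G => σ G ⊆ U)) := by
  ext x
  simp only [Rz, Set.mem_ofPred_eq, Finset.mem_filter]
  constructor
  · rintro ⟨h0, hs, G, h1, h2, h3⟩
    exact ⟨h0, hs, G, ⟨h1, h2⟩, h3⟩
  · rintro ⟨h0, hs, G, ⟨h1, h2⟩, h3⟩
    exact ⟨h0, hs, G, h1, h2, h3⟩

theorem hCM_of_top (hdown : ∀ G ∈ Γ, ∀ H : Finset (Fin n), H ⊆ G → H ∈ Γ)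
    (hmono : ∀ G ∈ Γ, ∀ H : Finset (Fin n), H ⊆ G → σ H ⊆ σ G) (htop : TopHyp d n Γ σ) :
    ∀ U : Finset (Fin d), U.Nonempty → ∀ G ∈ Γ, σ G ⊆ U → ∀ k < U.card,
      ∀ z : Finset (Fin n) → ZMod 2,
        (∀ F, z F ≠ 0 → F ∈ Γ ∧ σ F ⊆ U ∧ G ⊆ F ∧ F.card = k) →
        (∀ E, G ⊆ E → ∑ v ∈ Finset.univ \ E, z (insert v E) = 0) →
        ∃ u : Finset (Fin n) → ZMod 2,
          (∀ F, u F ≠ 0 → F ∈ Γ ∧ σ F ⊆ U ∧ G ⊆ F ∧ F.card = k + 1) ∧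
          ∀ F, G ⊆ F → ∑ v ∈ Finset.univ \ F, u (insert v F) = z F := by
  intro U hU G hG hGU k hk z hz hbz
  obtain ⟨φ, -⟩ := htop U hU
  let K : Finset (Finset (Fin n)) := Γ.filter (fun G => σ G ⊆ U)
  have hK : ∀ F, F ∈ K ↔ F ∈ Γ ∧ σ F ⊆ U := fun F => Finset.mem_filter
  have hKd : ∀ F ∈ K, ∀ F' ⊆ F, F' ∈ K := by
    intro F hF F' hF'
    rw [hK] at hF ⊢
    exact ⟨hdown F hF.1 F' hF', (hmono F hF.1 F' hF').trans hF.2⟩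
  let ψ : Rz K ≃ₜ Metric.closedBall (0 : EuclideanSpace ℝ (Fin (U.card - 1))) 1 :=
    (Homeomorph.setCongr (set_eq (Γ := Γ) (σ := σ) U).symm).trans φ
  obtain ⟨u, hu1, hu2⟩ := exact_of_ball hKd ψ ((hK G).2 ⟨hG, hGU⟩) (k := k) (by omega) z
    (by
      intro F hF
      obtain ⟨h1, h2, h3, h4⟩ := hz F hF
      exact ⟨(hK F).2 ⟨h1, h2⟩, h3, h4⟩) hbz
  refine ⟨u, ?_, hu2⟩
  intro F hF
  obtain ⟨h1, h2, h3⟩ := hu1 F hF
  rw [hK] at h1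
  exact ⟨h1.1, h1.2, h2, h3⟩

theorem hσne_of_top (v0 : Fin d) (htop : TopHyp d n Γ σ) :
    ∀ G ∈ Γ, G.Nonempty → (σ G).Nonempty := by
  intro G hG hGne
  rw [Finset.nonempty_iff_ne_empty]
  intro hempty
  obtain ⟨φ, hφ⟩ := htop {v0} (Finset.singleton_nonempty _)
  have h1 := (hφ G hG hGne (by rw [hempty]; exact Finset.empty_subset _)).2 (by
    intro y _
    have : ∀ b : EuclideanSpace ℝ (Fin (({v0} : Finset (Fin d)).card - 1)), b = 0 := by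
      intro b
      ext j
      have := j.2
      simp at this
    rw [this (φ y)]
    simp)
  rw [hempty] at h1
  exact (Finset.singleton_ne_empty v0) h1.symm

theorem hne_of_top (v0 : Fin d) (hdown : ∀ G ∈ Γ, ∀ H : Finset (Fin n), H ⊆ G → H ∈ Γ)
    (htop : TopHyp d n Γ σ) : ∅ ∈ Γ := by
  obtain ⟨φ, -⟩ := htop {v0} (Finset.singleton_nonempty _)
  have h0 : (0 : EuclideanSpace ℝ (Fin (({v0} : Finset (Fin d)).card - 1))) ∈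
      Metric.closedBall (0 : EuclideanSpace ℝ (Fin (({v0} : Finset (Fin d)).card - 1))) 1 := by
    simp
  obtain ⟨-, -, G, hG, -⟩ := (φ.symm ⟨0, h0⟩).2
  exact hdown G hG ∅ (Finset.empty_subset _)

end Pool.Agent.BallCM
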